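import Pool.Agent.MP_9125cf_lc.Defs

section

set_option autoImplicit false

namespace Pool.Agent.MP_9125cf_lc

open Classical

section CP
variable {α β : Type} [Primcodable α] [Primcodable β]

theorem cp_comp {p : β → Prop} (hp : ComputablePred p) {g : α → β} (hg : Computable g) :
    ComputablePred fun a => p (g a) :=
  Computable.computablePred (hp.decide.comp hg)

theorem cp_and {p q : α → Prop} (hp : ComputablePred p) (hq : ComputablePred q) :
    ComputablePred fun a => p a ∧ q a :=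
  Computable.computablePred
    ((Primrec.and.to_comp.comp hp.decide hq.decide).of_eq fun a => by simp)

theorem cp_or {p q : α → Prop} (hp : ComputablePred p) (hq : ComputablePred q) :
    ComputablePred fun a => p a ∨ q a :=
  Computable.computablePred
    ((Primrec.or.to_comp.comp hp.decide hq.decide).of_eq fun a => by simp)

theorem cp_imp {p q : α → Prop} (hp : ComputablePred p) (hq : ComputablePred q) :
    ComputablePred fun a => p a → q a :=
  (cp_or hp.not hq).of_eq fun a => by tauto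

theorem cp_const (P : Prop) : ComputablePred fun _ : α => P :=
  Computable.computablePred (Computable.const (decide P))

theorem cp_eq {f g : α → β} (hf : Computable f) (hg : Computable g) :
    ComputablePred fun a => f a = g a :=
  cp_comp (p := fun q : β × β => q.1 = q.2) (PrimrecPred.computablePred Primrec.eq)
    (hf.pair hg)

theorem cp_lt {f g : α → ℕ} (hf : Computable f) (hg : Computable g) :
    ComputablePred fun a => f a < g a :=
  cp_comp (p := fun q : ℕ × ℕ => q.1 < q.2) (PrimrecPred.computablePred Primrec.nat_lt)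
    (hf.pair hg)

theorem cp_ball {R : α × ℕ → Prop} (hR : ComputablePred R) {n : α → ℕ} (hn : Computable n) :
    ComputablePred fun a => ∀ j < n a, R (a, j) := by
  have h := Computable.nat_rec (f := n) (g := fun _ => true)
    (h := fun a (q : ℕ × Bool) => q.2 && decide (R (a, q.1))) hn (Computable.const true)
    (Primrec.and.to_comp.comp (Computable.snd.comp Computable.snd)
      (hR.decide.comp (Computable.fst.pair (Computable.fst.comp Computable.snd)))).to₂
  refine Computable.computablePred (h.of_eq fun a => ?_)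
  generalize n a = m
  induction m with
  | zero => simp
  | succ m ih =>
    simp only [ih]
    rw [Bool.eq_iff_iff]
    simp only [Bool.and_eq_true, decide_eq_true_eq]
    constructor
    · rintro ⟨h1, h2⟩ j hj
      rcases Nat.lt_succ_iff_lt_or_eq.1 hj with h | h
      · exact h1 j h
      · exact h ▸ h2
    · intro h1
      exact ⟨fun j hj => h1 j (by omega), h1 m (by omega)⟩

theorem cp_bex {R : α × ℕ → Prop} (hR : ComputablePred R) {n : α → ℕ} (hn : Computable n) :
    ComputablePred fun a => ∃ j < n a, R (a, j) :=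
  (cp_ball hR.not hn).not.of_eq fun a => by simp

theorem c_ite {σ : Type} [Primcodable σ] {p : α → Prop} (hp : ComputablePred p) {f g : α → σ}
    (hf : Computable f) (hg : Computable g) : Computable fun a => if p a then f a else g a :=
  (hp.decide.cond hf hg).of_eq fun a => by by_cases h : p a <;> simp [h]

end CP

/-- Predicate version. -/
def Sg {α : Type} [Primcodable α] (P : α → Prop) : Prop := Sigma11 {a | P a}

/-- Predicate version. -/
def Dl {α : Type} [Primcodable α] (P : α → Prop) : Prop := Sg P ∧ Sg fun a => ¬ P a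

section Sg
variable {α β : Type} [Primcodable α] [Primcodable β]

theorem Sg.of_eq {P Q : α → Prop} (h : Sg P) (H : ∀ a, P a ↔ Q a) : Sg Q :=
  (funext fun a => propext (H a) : P = Q) ▸ h

theorem Sg.comp {P : β → Prop} (h : Sg P) {g : α → β} (hg : Computable g) :
    Sg fun a => P (g a) := by
  obtain ⟨R, hR, H⟩ := h
  exact ⟨fun q => R (g q.1, q.2),
    cp_comp hR ((hg.comp Computable.fst).pair Computable.snd), fun a => H (g a)⟩

theorem Sg.of_cp {P : α → Prop} (h : ComputablePred P) : Sg P :=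
  ⟨fun q => P q.1, cp_comp h Computable.fst, fun a => by simp⟩

theorem Sg.ex_nat {P : α × ℕ → Prop} (h : Sg P) : Sg fun a => ∃ x, P (a, x) := by
  obtain ⟨R, hR, H⟩ := h
  refine ⟨fun q => q.2 = [] ∨ R ((q.1, q.2.headI), q.2.tail), ?_, fun a => ?_⟩
  · refine cp_or (cp_eq Computable.snd (Computable.const _)) (cp_comp hR ?_)
    exact (Computable.fst.pair (Primrec.list_headI.to_comp.comp Computable.snd)).pair
      (Primrec.list_tail.to_comp.comp Computable.snd)
  · simp only [Set.mem_ofPred_eq] at H ⊢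
    constructor
    · rintro ⟨x, hx⟩
      obtain ⟨f, hf⟩ := (H _).1 hx
      refine ⟨fun n => Nat.casesOn n x f, fun n => ?_⟩
      cases n with
      | zero => simp
      | succ n =>
        right
        rw [List.range_succ_eq_map]
        simpa [Function.comp_def] using hf n
    · rintro ⟨f, hf⟩
      refine ⟨f 0, (H _).2 ⟨fun n => f (n + 1), fun n => ?_⟩⟩
      have := hf (n + 1)
      rw [List.range_succ_eq_map] at this
      simpa [Function.comp_def] using this

theorem map_getD_range (F : ℕ → ℕ) (u : ℕ → ℕ) (m N : ℕ) (h : ∀ j < m, u j < N) :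
    (List.range m).map (fun j => ((List.range N).map F).getD (u j) 0)
      = (List.range m).map fun j => F (u j) := by
  refine List.map_congr_left fun j hj => ?_
  have := h j (List.mem_range.1 hj)
  simp [List.getD_eq_getElem?_getD, this]

theorem c_sub {n : α → ℕ} {u : α × ℕ → ℕ} {s : α → List ℕ} (hn : Primrec n) (hu : Primrec u)
    (hs : Primrec s) : Primrec fun a => (List.range (n a)).map fun j => (s a).getD (u (a, j)) 0 :=
  Primrec.list_map (Primrec.list_range.comp hn)
    ((Primrec.list_getD 0).comp (hs.comp Primrec.fst) hu).to₂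

theorem Sg.all_nat {P : α × ℕ → Prop} (h : Sg P) : Sg fun a => ∀ x, P (a, x) := by
  obtain ⟨R, hR, H⟩ := h
  refine ⟨fun q => R ((q.1, q.2.length.unpair.1), (List.range q.2.length.unpair.2).map
    fun j => q.2.getD (Nat.pair q.2.length.unpair.1 j) 0), ?_, fun a => ?_⟩
  · have h1 : Primrec fun q : α × List ℕ => q.2.length.unpair :=
      Primrec.unpair.comp (Primrec.list_length.comp Primrec.snd)
    have h2' := Primrec₂.natPair.comp ((Primrec.fst.comp h1).comp
      (Primrec.fst (α := α × List ℕ) (β := ℕ))) Primrec.snd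
    have h2 : Primrec fun z : (α × List ℕ) × ℕ => Nat.pair z.1.2.length.unpair.1 z.2 := h2'
    refine cp_comp hR (Primrec.to_comp ?_)
    exact (Primrec.fst.pair (Primrec.fst.comp h1)).pair
      (c_sub (u := fun z => Nat.pair z.1.2.length.unpair.1 z.2) (Primrec.snd.comp h1)
        h2 Primrec.snd)
  · simp only [Set.mem_ofPred_eq, List.length_map, List.length_range] at H ⊢
    have key : ∀ (F : ℕ → ℕ) (N : ℕ), (List.range N.unpair.2).map
        (fun j => ((List.range N).map F).getD (Nat.pair N.unpair.1 j) 0)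
        = (List.range N.unpair.2).map fun j => F (Nat.pair N.unpair.1 j) := by
      intro F N
      refine map_getD_range F _ _ _ fun j hj => ?_
      conv_rhs => rw [← Nat.pair_unpair N]
      exact Nat.pair_lt_pair_right _ hj
    constructor
    · intro hx
      choose f hf using fun x => (H _).1 (hx x)
      refine ⟨fun t => f t.unpair.1 t.unpair.2, fun N => ?_⟩
      rw [key]
      simpa using hf N.unpair.1 N.unpair.2
    · rintro ⟨F, hF⟩ x
      refine (H _).2 ⟨fun j => F (Nat.pair x j), fun m => ?_⟩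
      have := hF (Nat.pair x m)
      rw [key] at this
      simpa using this

theorem Sg.ite {P Q : α → Prop} (hP : Sg P) (hQ : Sg Q) :
    Sg fun z : α × ℕ => (z.2 = 0 ∧ P z.1) ∨ (z.2 ≠ 0 ∧ Q z.1) := by
  obtain ⟨R, hR, H⟩ := hP
  obtain ⟨R', hR', H'⟩ := hQ
  have e0 : ComputablePred fun q : (α × ℕ) × List ℕ => q.1.2 = 0 :=
    cp_eq (Computable.snd.comp Computable.fst) (Computable.const 0)
  have e1 : Computable fun q : (α × ℕ) × List ℕ => (q.1.1, q.2) :=
    (Computable.fst.comp Computable.fst).pair Computable.snd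
  refine ⟨fun q => (q.1.2 = 0 ∧ R (q.1.1, q.2)) ∨ (q.1.2 ≠ 0 ∧ R' (q.1.1, q.2)),
    cp_or (cp_and e0 (cp_comp hR e1)) (cp_and e0.not (cp_comp hR' e1)), fun z => ?_⟩
  simp only [Set.mem_ofPred_eq] at H H' ⊢
  by_cases h : z.2 = 0
  · simp [h, H]
  · simp [h, H']

theorem Sg.and {P Q : α → Prop} (hP : Sg P) (hQ : Sg Q) : Sg fun a => P a ∧ Q a :=
  (hP.ite hQ).all_nat.of_eq fun a =>
    ⟨fun h => ⟨by simpa using h 0, by simpa using h 1⟩, fun h x => by
      by_cases hx : x = 0 <;> simp [hx, h]⟩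

theorem Sg.or {P Q : α → Prop} (hP : Sg P) (hQ : Sg Q) : Sg fun a => P a ∨ Q a :=
  (hP.ite hQ).ex_nat.of_eq fun a =>
    ⟨fun ⟨_, h⟩ => h.imp And.right And.right, fun h => by
      rcases h with h | h
      · exact ⟨0, by simp [h]⟩
      · exact ⟨1, by simp [h]⟩⟩

theorem Sg.ex {γ : Type} [Denumerable γ] {P : α × γ → Prop} (h : Sg P) :
    Sg fun a => ∃ x, P (a, x) :=
  (h.comp (g := fun z : α × ℕ => (z.1, Denumerable.ofNat γ z.2))
    (Computable.fst.pair ((Computable.ofNat γ).comp Computable.snd))).ex_nat.of_eq fun a =>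
    ⟨fun ⟨_, h⟩ => ⟨_, h⟩, fun ⟨x, h⟩ => ⟨Encodable.encode x, by simpa using h⟩⟩

theorem Sg.all {γ : Type} [Denumerable γ] {P : α × γ → Prop} (h : Sg P) :
    Sg fun a => ∀ x, P (a, x) :=
  (h.comp (g := fun z : α × ℕ => (z.1, Denumerable.ofNat γ z.2))
    (Computable.fst.pair ((Computable.ofNat γ).comp Computable.snd))).all_nat.of_eq fun a =>
    ⟨fun h x => by simpa using h (Encodable.encode x), fun h _ => h _⟩

theorem Sg.ex_fun {P : α × List ℕ → Prop} (h : Sg P) :
    Sg fun a => ∃ g : ℕ → ℕ, ∀ n, P (a, (List.range n).map g) := by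
  obtain ⟨R, hR, H⟩ := h
  refine ⟨fun q => q.2.length.unpair.1 = 0 ∨
    R ((q.1, (List.range (q.2.length.unpair.1 - 1)).map fun j => q.2.getD (Nat.pair 0 j) 0),
      (List.range q.2.length.unpair.2).map
        fun j => q.2.getD (Nat.pair q.2.length.unpair.1 j) 0), ?_, fun a => ?_⟩
  · have h1 : Primrec fun q : α × List ℕ => q.2.length.unpair :=
      Primrec.unpair.comp (Primrec.list_length.comp Primrec.snd)
    have h2' := Primrec₂.natPair.comp ((Primrec.fst.comp h1).comp
      (Primrec.fst (α := α × List ℕ) (β := ℕ))) Primrec.snd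
    have h2 : Primrec fun z : (α × List ℕ) × ℕ => Nat.pair z.1.2.length.unpair.1 z.2 := h2'
    refine cp_or (cp_eq (Primrec.fst.comp h1).to_comp (Computable.const 0))
      (cp_comp hR (Primrec.to_comp ?_))
    exact (Primrec.fst.pair (c_sub (u := fun z => Nat.pair 0 z.2)
        (Primrec.nat_sub.comp (Primrec.fst.comp h1) (Primrec.const 1))
        (Primrec₂.natPair.comp (Primrec.const 0) Primrec.snd) Primrec.snd)).pair
      (c_sub (u := fun z => Nat.pair z.1.2.length.unpair.1 z.2) (Primrec.snd.comp h1)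
        h2 Primrec.snd)
  · simp only [Set.mem_ofPred_eq, List.length_map, List.length_range] at H ⊢
    have key : ∀ (F : ℕ → ℕ) (N : ℕ), (List.range N.unpair.2).map
        (fun j => ((List.range N).map F).getD (Nat.pair N.unpair.1 j) 0)
        = (List.range N.unpair.2).map fun j => F (Nat.pair N.unpair.1 j) := by
      intro F N
      refine map_getD_range F _ _ _ fun j hj => ?_
      conv_rhs => rw [← Nat.pair_unpair N]
      exact Nat.pair_lt_pair_right _ hj
    have key2 : ∀ (F : ℕ → ℕ) (N : ℕ), (List.range (N.unpair.1 - 1)).map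
        (fun j => ((List.range N).map F).getD (Nat.pair 0 j) 0)
        = (List.range (N.unpair.1 - 1)).map fun j => F (Nat.pair 0 j) := by
      intro F N
      refine map_getD_range F _ _ _ fun j hj => ?_
      conv_rhs => rw [← Nat.pair_unpair N]
      generalize N.unpair.1 = u at hj
      generalize N.unpair.2 = v
      have h1 : Nat.pair 0 j ≤ j * j := by
        unfold Nat.pair; split_ifs <;> simp_all
      have h2 : u * u ≤ Nat.pair u v := by
        unfold Nat.pair; split_ifs with h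
        · nlinarith
        · omega
      have h3 : j * j < u * u := Nat.mul_self_lt_mul_self (by omega)
      omega
    constructor
    · rintro ⟨g, hg⟩
      choose f hf using fun n => (H _).1 (hg n)
      refine ⟨fun t => if t.unpair.1 = 0 then g t.unpair.2 else f (t.unpair.1 - 1) t.unpair.2,
        fun N => ?_⟩
      by_cases h0 : N.unpair.1 = 0
      · exact Or.inl h0
      · right
        rw [key, key2]
        simpa [h0] using hf (N.unpair.1 - 1) N.unpair.2
    · rintro ⟨F, hF⟩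
      refine ⟨fun j => F (Nat.pair 0 j), fun n => (H _).2 ⟨fun j => F (Nat.pair (n + 1) j),
        fun m => ?_⟩⟩
      have := hF (Nat.pair (n + 1) m)
      rw [key, key2] at this
      simpa using this

theorem Dl.of_eq {P Q : α → Prop} (h : Dl P) (H : ∀ a, P a ↔ Q a) : Dl Q :=
  (funext fun a => propext (H a) : P = Q) ▸ h

theorem Dl.comp {P : β → Prop} (h : Dl P) {g : α → β} (hg : Computable g) :
    Dl fun a => P (g a) := ⟨h.1.comp hg, h.2.comp hg⟩

theorem Dl.of_cp {P : α → Prop} (h : ComputablePred P) : Dl P := ⟨.of_cp h, .of_cp h.not⟩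

theorem Dl.not {P : α → Prop} (h : Dl P) : Dl fun a => ¬ P a :=
  ⟨h.2, h.1.of_eq fun a => by simp⟩

theorem Dl.and {P Q : α → Prop} (hP : Dl P) (hQ : Dl Q) : Dl fun a => P a ∧ Q a :=
  ⟨hP.1.and hQ.1, (hP.2.or hQ.2).of_eq fun a => by tauto⟩

theorem Dl.or {P Q : α → Prop} (hP : Dl P) (hQ : Dl Q) : Dl fun a => P a ∨ Q a :=
  ⟨hP.1.or hQ.1, (hP.2.and hQ.2).of_eq fun a => by tauto⟩

theorem Dl.imp {P Q : α → Prop} (hP : Dl P) (hQ : Dl Q) : Dl fun a => P a → Q a :=
  (hP.not.or hQ).of_eq fun a => by tauto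

theorem Dl.iff {P Q : α → Prop} (hP : Dl P) (hQ : Dl Q) : Dl fun a => P a ↔ Q a :=
  ((hP.imp hQ).and (hQ.imp hP)).of_eq fun a => by tauto

theorem Dl.ex {γ : Type} [Denumerable γ] {P : α × γ → Prop} (h : Dl P) :
    Dl fun a => ∃ x, P (a, x) :=
  ⟨h.1.ex, h.2.all.of_eq fun a => by simp⟩

theorem Dl.all {γ : Type} [Denumerable γ] {P : α × γ → Prop} (h : Dl P) :
    Dl fun a => ∀ x, P (a, x) :=
  ⟨h.1.all, h.2.ex.of_eq fun a => by simp⟩

theorem delta11_iff (S : Set α) : Delta11 S ↔ Dl fun a => a ∈ S := Iff.rfl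

end Sg

end Pool.Agent.MP_9125cf_lc

end

section

set_option autoImplicit false

namespace Pool.Agent.MP_9125cf_lc

open Classical

theorem CompOrd.of_le {α β : Ordinal.{0}} (h : CompOrd α) (hβ : β ≤ α) : CompOrd β := by
  rcases hβ.eq_or_lt with rfl | hβ
  · exact h
  obtain ⟨S, r, wo, hS, hr, rfl⟩ := h
  obtain ⟨x, rfl⟩ := Ordinal.typein_surj _ hβ
  let e : (fun a b : {y | y ∈ S ∧ r y x} => r a b) ≃r
      Subrel (fun a b : S => r a b) (fun a : S => r a x) :=
    { toFun := fun a => ⟨⟨a.1, a.2.1⟩, a.2.2⟩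
      invFun := fun a => ⟨a.1.1, a.1.2, a.2⟩
      left_inv := fun _ => rfl
      right_inv := fun _ => rfl
      map_rel_iff' := Iff.rfl }
  have wo' := e.toRelEmbedding.isWellOrder
  refine ⟨{y | y ∈ S ∧ r y x}, r, wo', ?_, hr, ?_⟩
  · exact cp_and hS (cp_comp hr (Computable.id.pair (Computable.const x.1)))
  · exact e.ordinalType_congr.trans (Ordinal.type_subrel _ x)

theorem not_compOrd_omega1CK : ¬ CompOrd omega1CK := by
  have : ({α | ¬ CompOrd α} : Set Ordinal.{0}).Nonempty := by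
    refine ⟨(Cardinal.aleph 1).ord, ?_⟩
    rintro ⟨S, r, wo, -, -, h⟩
    have h1 := congrArg Ordinal.card h
    rw [Ordinal.card_type, Cardinal.card_ord] at h1
    have h2 : Cardinal.mk S ≤ Cardinal.aleph0 := Cardinal.mk_le_aleph0
    rw [h1] at h2
    exact absurd h2 (not_le.2 Cardinal.aleph0_lt_aleph_one)
  exact csInf_mem this

theorem compOrd_iff {α : Ordinal.{0}} : CompOrd α ↔ α < omega1CK := by
  constructor
  · intro h
    by_contra h'
    exact not_compOrd_omega1CK (h.of_le (not_lt.1 h'))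
  · intro h
    by_contra h'
    exact absurd (csInf_le' (s := {α | ¬ CompOrd α}) h') (not_le.2 h)

/-- `u` has rank at least `β` for the relation `r`. -/
def Deep {γ : Type} (r : γ → γ → Prop) (β : Ordinal.{0}) (u : γ) : Prop :=
  ∀ δ, δ < β → ∃ u', r u' u ∧ Deep r δ u'
termination_by β

theorem deep_iff {γ : Type} {r : γ → γ → Prop} {β : Ordinal.{0}} {u : γ} :
    Deep r β u ↔ ∀ δ, δ < β → ∃ u', r u' u ∧ Deep r δ u' := by rw [Deep]

theorem Deep.mono {γ : Type} {r : γ → γ → Prop} {β β' : Ordinal.{0}} {u : γ} (h : Deep r β u)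
    (hb : β' ≤ β) : Deep r β' u :=
  deep_iff.2 fun δ hδ => deep_iff.1 h δ (hδ.trans_le hb)

/-- The rank of a node. -/
noncomputable def rk {γ : Type} (r : γ → γ → Prop) (u : γ) : Ordinal.{0} :=
  sInf {δ | ¬ Deep r (δ + 1) u}

theorem rk_lt {γ : Type} {r : γ → γ → Prop} {β : Ordinal.{0}} {u : γ} (h : ¬ Deep r β u) :
    rk r u < β ∧ ∀ u', r u' u → ¬ Deep r (rk r u) u' := by
  rw [deep_iff] at h
  push Not at h
  obtain ⟨δ, hδ, h⟩ := h
  have hm : δ ∈ {δ | ¬ Deep r (δ + 1) u} := fun h' => by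
    obtain ⟨u', h1, h2⟩ := deep_iff.1 h' δ (Order.lt_succ δ)
    exact h u' h1 h2
  refine ⟨(csInf_le' hm).trans_lt hδ, fun u' hu' hd => ?_⟩
  have h2 : ¬ Deep r (rk r u + 1) u := csInf_mem (s := {δ | ¬ Deep r (δ + 1) u}) ⟨δ, hm⟩
  exact h2 (deep_iff.2 fun ε hε => ⟨u', hu', hd.mono (Order.lt_succ_iff.1 hε)⟩)

/-- A list as a function with values in `ℕ∞`. -/
def ext (s : List ℕ) (i : ℕ) : ℕ∞ := if i < s.length then (s.getD i 0 : ℕ) else ⊤

theorem ext_eq_iff {s t : List ℕ} {i : ℕ} : ext s i = ext t i ↔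
    (i < s.length ↔ i < t.length) ∧ (i < s.length → s.getD i 0 = t.getD i 0) := by
  unfold ext
  by_cases h1 : i < s.length <;> by_cases h2 : i < t.length <;> simp [h1, h2]

theorem ext_lt_iff {s t : List ℕ} {i : ℕ} : ext s i < ext t i ↔
    i < s.length ∧ (i < t.length → s.getD i 0 < t.getD i 0) := by
  unfold ext
  by_cases h1 : i < s.length <;> by_cases h2 : i < t.length <;> simp [h1, h2]

theorem ext_inj {s t : List ℕ} (h : ext s = ext t) : s = t := by
  have hl : s.length = t.length := by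
    have h1 := (ext_eq_iff.1 (congrFun h s.length)).1
    have h2 := (ext_eq_iff.1 (congrFun h t.length)).1
    omega
  refine List.ext_getElem hl fun i h1 h2 => ?_
  have := (ext_eq_iff.1 (congrFun h i)).2 h1
  simpa [List.getD_eq_getElem?_getD, h1, h2] using this

/-- The Kleene-Brouwer order. -/
def kb (s t : List ℕ) : Prop := toLex (ext s) < toLex (ext t)

theorem cp_kb : ComputablePred fun q : List ℕ × List ℕ => kb q.1 q.2 := by
  have L1 : Computable fun z : List ℕ × List ℕ => z.1.length :=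
    Computable.list_length.comp Computable.fst
  have G : Computable fun z : List ℕ × ℕ => z.1.getD z.2 0 := (Primrec.list_getD 0).to_comp
  have Lt : ComputablePred fun z : List ℕ × ℕ => z.2 < z.1.length :=
    cp_lt Computable.snd (Computable.list_length.comp Computable.fst)
  have p1 : Computable fun z : (List ℕ × List ℕ) × ℕ => (z.1.1, z.2) :=
    (Computable.fst.comp Computable.fst).pair Computable.snd
  have p2 : Computable fun z : (List ℕ × List ℕ) × ℕ => (z.1.2, z.2) :=
    (Computable.snd.comp Computable.fst).pair Computable.snd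
  have E : ComputablePred fun z : (List ℕ × List ℕ) × ℕ => ext z.1.1 z.2 = ext z.1.2 z.2 :=
    (cp_and (cp_and (cp_imp (cp_comp Lt p1) (cp_comp Lt p2)) (cp_imp (cp_comp Lt p2)
      (cp_comp Lt p1))) (cp_imp (cp_comp Lt p1) (cp_eq (G.comp p1) (G.comp p2)))).of_eq
      fun z => by rw [ext_eq_iff]; tauto
  have T : ComputablePred fun z : (List ℕ × List ℕ) × ℕ => ext z.1.1 z.2 < ext z.1.2 z.2 :=
    (cp_and (cp_comp Lt p1) (cp_imp (cp_comp Lt p2) (cp_lt (G.comp p1) (G.comp p2)))).of_eq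
      fun z => by rw [ext_lt_iff]
  have B := cp_ball (cp_comp E (g := fun z : ((List ℕ × List ℕ) × ℕ) × ℕ => (z.1.1, z.2))
    ((Computable.fst.comp Computable.fst).pair Computable.snd)) Computable.snd
  refine (cp_bex (cp_and B T) L1).of_eq fun q => ?_
  constructor
  · rintro ⟨i, -, h1, h2⟩
    exact ⟨i, h1, h2⟩
  · rintro ⟨i, h1, h2⟩
    exact ⟨i, (ext_lt_iff.1 h2).1, h1, h2⟩

theorem kb_append (s : List ℕ) (c : ℕ) : kb (s ++ [c]) s := by
  refine ⟨s.length, fun j hj => ?_, ?_⟩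
  · exact ext_eq_iff.2 ⟨by simp; omega, fun _ => by
      simp [List.getD_eq_getElem?_getD, List.getElem?_append_left hj]⟩
  · exact ext_lt_iff.2 ⟨by simp, by simp⟩

theorem kb_path (s : ℕ → List ℕ) (hs : ∀ m, kb (s (m + 1)) (s m)) :
    ∃ G : ℕ → ℕ, ∀ i, ∃ m, i ≤ (s m).length ∧ ∀ j < i, (s m).getD j 0 = G j := by
  have anti : StrictAnti fun m => toLex (ext (s m)) := strictAnti_nat_of_succ_lt hs
  have st : ∀ i, ∃ N, ∀ m ≥ N, ∀ j < i, ext (s m) j = ext (s N) j := by
    intro i
    induction i with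
    | zero => exact ⟨0, by simp⟩
    | succ i ih =>
      obtain ⟨N, hN⟩ := ih
      obtain ⟨v, ⟨N', hN', rfl⟩, hv⟩ := (wellFounded_lt (α := ℕ∞)).has_min
        {v | ∃ m ≥ N, ext (s m) i = v} ⟨_, N, le_rfl, rfl⟩
      refine ⟨N', fun m hm j hj => ?_⟩
      rcases Nat.lt_succ_iff_lt_or_eq.1 hj with h | rfl
      · rw [hN m (hN'.trans hm) j h, hN N' hN' j h]
      · refine le_antisymm ?_ (not_lt.1 (hv _ ⟨m, hN'.trans hm, rfl⟩))
        exact Pi.apply_le_of_toLex (anti.antitone hm) fun k hk => by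
          rw [hN m (hN'.trans hm) k hk, hN N' hN' k hk]
  choose N hN using st
  have len : ∀ i, ∀ m ≥ N i, i ≤ (s m).length := by
    intro i m hm
    by_contra h
    have h1 : ∀ j < i, ext (s (m + 1)) j = ext (s m) j := fun j hj => by
      rw [hN i m hm j hj, hN i (m + 1) (by omega) j hj]
    obtain ⟨k, -, hk⟩ := hs m
    have h2 := (ext_lt_iff.1 hk).1
    have h3 := (ext_eq_iff.1 (h1 (s m).length (by omega))).1
    exact absurd (h1 k (by omega)) (ne_of_lt hk)
  refine ⟨fun j => (s (N (j + 1))).getD j 0, fun i => ⟨N i, len i _ le_rfl, fun j hj => ?_⟩⟩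
  have h1 := hN i (max (N i) (N (j + 1))) (le_max_left _ _) j hj
  have h2 := hN (j + 1) (max (N i) (N (j + 1))) (le_max_right _ _) j (by omega)
  exact (ext_eq_iff.1 (h1.symm.trans h2)).2 (lt_of_lt_of_le hj (len i _ le_rfl))

section
variable {γ : Type} [Denumerable γ]

/-- The `j`-th node of a coded chain. -/
def nd (u : γ) (s : List ℕ) (j : ℕ) : γ :=
  if j = 0 then u else Denumerable.ofNat γ (s.getD (j - 1) 0).unpair.1

/-- Coded chains with witnesses. -/
def Chn (R : (γ × γ) × ℕ → Prop) (u : γ) (s : List ℕ) : Prop :=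
  ∀ j < s.length, R ((nd u s (j + 1), nd u s j), (s.getD j 0).unpair.2)

theorem cp_chn {R : (γ × γ) × ℕ → Prop} (hR : ComputablePred R) (u : γ) :
    ComputablePred (Chn R u) := by
  have G : Primrec fun z : List ℕ × ℕ => z.1.getD z.2 0 := Primrec.list_getD 0
  have N : Primrec fun z : List ℕ × ℕ => nd u z.1 z.2 :=
    Primrec.ite (Primrec.eq.comp Primrec.snd (Primrec.const 0)) (Primrec.const u)
      ((Primrec.ofNat γ).comp (Primrec.fst.comp (Primrec.unpair.comp (G.comp
        (Primrec.fst.pair (Primrec.nat_sub.comp Primrec.snd (Primrec.const 1)))))))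
  exact cp_ball (R := fun z : List ℕ × ℕ =>
    R ((nd u z.1 (z.2 + 1), nd u z.1 z.2), (z.1.getD z.2 0).unpair.2))
    (cp_comp hR (((N.comp (Primrec.fst.pair (Primrec.succ.comp Primrec.snd))).pair N).pair
      (Primrec.snd.comp (Primrec.unpair.comp G))).to_comp) Computable.list_length

theorem deep_bound {R : (γ × γ) × ℕ → Prop} (hR : ComputablePred R) (u : γ)
    (hu : ¬ ∃ f : ℕ → γ, f 0 = u ∧ ∀ n, ∃ k, R ((f (n + 1), f n), k)) :
    ∃ β < omega1CK, ¬ Deep (fun a b => ∃ k, R ((a, b), k)) β u := by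
  let S : Set ℕ := {c | Chn R u (Denumerable.ofNat (List ℕ) c)}
  let r : ℕ → ℕ → Prop := fun a b =>
    kb (Denumerable.ofNat (List ℕ) a) (Denumerable.ofNat (List ℕ) b)
  have wf : WellFounded fun x y : S => r x y := by
    rw [wellFounded_iff_isEmpty_descending_chain]
    refine ⟨fun ⟨c, hc⟩ => hu ?_⟩
    obtain ⟨G, hG⟩ := kb_path (fun m => Denumerable.ofNat (List ℕ) (c m)) hc
    refine ⟨fun j => if j = 0 then u else Denumerable.ofNat γ (G (j - 1)).unpair.1, by simp,
      fun n => ⟨(G n).unpair.2, ?_⟩⟩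
    obtain ⟨m, h1, h2⟩ := hG (n + 1)
    have := (c m).2 n (by omega)
    unfold nd at this
    rw [h2 n (by omega), h2 (n - 1) (by omega), h2 (n + 1 - 1) (by omega)] at this
    exact this
  have tri : Std.Trichotomous fun x y : S => r x y := by
    refine ⟨fun a b h1 h2 => ?_⟩
    have h3 : ext (Denumerable.ofNat (List ℕ) a) = ext (Denumerable.ofNat (List ℕ) b) :=
      toLex.injective (le_antisymm (not_lt.1 h2) (not_lt.1 h1))
    exact Subtype.ext ((Denumerable.eqv (List ℕ)).symm.injective (ext_inj h3))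
  have wo : IsWellOrder S fun x y : S => r x y := { wf := wf, trichotomous := tri.1 }
  have hc : CompOrd (Ordinal.type fun x y : S => r x y) :=
    ⟨S, r, wo, cp_comp (cp_chn hR u) (Computable.ofNat _), cp_comp cp_kb
      (((Computable.ofNat _).comp Computable.fst).pair
        ((Computable.ofNat _).comp Computable.snd)), rfl⟩
  have key : ∀ β : Ordinal.{0}, ∀ (s : List ℕ) (hs : Chn R u s),
      Deep (fun a b => ∃ k, R ((a, b), k)) β (nd u s s.length) →
      β ≤ Ordinal.typein (fun x y : S => r x y) ⟨Encodable.encode s, by simpa [S] using hs⟩ := by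
    intro β
    induction β using WellFoundedLT.induction with
    | ind β ih =>
      intro s hs hd
      refine le_of_forall_lt fun δ hδ => ?_
      obtain ⟨u', ⟨k, hk⟩, hd'⟩ := deep_iff.1 hd δ hδ
      have e1 : ∀ j ≤ s.length, nd u (s ++ [Nat.pair (Encodable.encode u') k]) j = nd u s j := by
        intro j hj
        unfold nd
        split_ifs with h
        · rfl
        · simp [List.getD_eq_getElem?_getD,
            List.getElem?_append_left (show j - 1 < s.length by omega)]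
      have e2 : nd u (s ++ [Nat.pair (Encodable.encode u') k]) (s.length + 1) = u' := by
        simp [nd]
      have hs' : Chn R u (s ++ [Nat.pair (Encodable.encode u') k]) := by
        intro j hj
        simp only [List.length_append, List.length_singleton] at hj
        rcases Nat.lt_succ_iff_lt_or_eq.1 hj with h | rfl
        · rw [e1 j h.le, e1 (j + 1) h]
          simpa [List.getD_eq_getElem?_getD, List.getElem?_append_left h] using hs j h
        · rw [e1 _ le_rfl, e2]
          simpa using hk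
      refine (ih δ hδ _ hs' (by simpa [e2] using hd')).trans_lt ?_
      rw [Ordinal.typein_lt_typein]
      simpa [r] using kb_append _ _
  have h0 : Chn R u [] := by intro j hj; simp at hj
  refine ⟨_ + 1, compOrd_iff.1 (hc.of_le (Order.succ_le_of_lt (Ordinal.typein_lt_type _
    ⟨Encodable.encode ([] : List ℕ), by simpa [S] using h0⟩))), fun hd => ?_⟩
  exact absurd (key _ [] h0 (by simpa [nd] using hd)) (not_le.2 (Order.lt_succ _))

end

end Pool.Agent.MP_9125cf_lc

end

section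

set_option autoImplicit false

namespace Pool.Agent.MP_9125cf_lc

open Classical

attribute [fun_prop] Computable ComputablePred Dl Sg

section
variable {α β γ : Type} [Primcodable α] [Primcodable β] [Primcodable γ]

@[fun_prop] theorem c_id : Computable fun x : α => x := Computable.id
@[fun_prop] theorem c_const (c : β) : Computable fun _ : α => c := Computable.const c
@[fun_prop] theorem c_comp {f : β → γ} {g : α → β} (hf : Computable f) (hg : Computable g) :
    Computable fun x => f (g x) := hf.comp hg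
@[fun_prop] theorem c_fst {f : α → β × γ} (hf : Computable f) : Computable fun x => (f x).1 :=
  Computable.fst.comp hf
@[fun_prop] theorem c_snd {f : α → β × γ} (hf : Computable f) : Computable fun x => (f x).2 :=
  Computable.snd.comp hf
@[fun_prop] theorem c_pair {f : α → β} {g : α → γ} (hf : Computable f) (hg : Computable g) :
    Computable fun x => (f x, g x) := hf.pair hg
@[fun_prop] theorem c_add {f g : α → ℕ} (hf : Computable f) (hg : Computable g) :
    Computable fun x => f x + g x := Primrec.nat_add.to_comp.comp hf hg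
@[fun_prop] theorem c_tsub {f g : α → ℕ} (hf : Computable f) (hg : Computable g) :
    Computable fun x => f x - g x := Primrec.nat_sub.to_comp.comp hf hg
@[fun_prop] theorem c_mul {f g : α → ℕ} (hf : Computable f) (hg : Computable g) :
    Computable fun x => f x * g x := Primrec.nat_mul.to_comp.comp hf hg
@[fun_prop] theorem c_div {f g : α → ℕ} (hf : Computable f) (hg : Computable g) :
    Computable fun x => f x / g x := Primrec.nat_div.to_comp.comp hf hg
@[fun_prop] theorem c_mod {f g : α → ℕ} (hf : Computable f) (hg : Computable g) :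
    Computable fun x => f x % g x := Primrec.nat_mod.to_comp.comp hf hg
@[fun_prop] theorem c_npair {f g : α → ℕ} (hf : Computable f) (hg : Computable g) :
    Computable fun x => Nat.pair (f x) (g x) := Primrec₂.natPair.to_comp.comp hf hg
@[fun_prop] theorem c_unpair {f : α → ℕ} (hf : Computable f) :
    Computable fun x => Nat.unpair (f x) := Computable.unpair.comp hf
@[fun_prop] theorem c_encode {f : α → β} (hf : Computable f) :
    Computable fun x => Encodable.encode (f x) := Computable.encode.comp hf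
@[fun_prop] theorem c_ofNat {δ : Type} [Denumerable δ] {f : α → ℕ} (hf : Computable f) :
    Computable fun x => Denumerable.ofNat δ (f x) := (Computable.ofNat δ).comp hf
@[fun_prop] theorem c_some {f : α → β} (hf : Computable f) :
    Computable fun x => some (f x) := Computable.option_some.comp hf
@[fun_prop] theorem c_length {f : α → List β} (hf : Computable f) :
    Computable fun x => (f x).length := Computable.list_length.comp hf
@[fun_prop] theorem c_cons {f : α → β} {g : α → List β} (hf : Computable f)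
    (hg : Computable g) : Computable fun x => f x :: g x := Computable.list_cons.comp hf hg
@[fun_prop] theorem c_append {f g : α → List β} (hf : Computable f)
    (hg : Computable g) : Computable fun x => f x ++ g x := Computable.list_append.comp hf hg
@[fun_prop] theorem c_tail {f : α → List β} (hf : Computable f) :
    Computable fun x => (f x).tail := Primrec.list_tail.to_comp.comp hf
@[fun_prop] theorem c_head? {f : α → List β} (hf : Computable f) :
    Computable fun x => (f x).head? := Primrec.list_head?.to_comp.comp hf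
@[fun_prop] theorem c_getD {f : α → List β} {g : α → ℕ} (d : β) (hf : Computable f)
    (hg : Computable g) : Computable fun x => (f x).getD (g x) d :=
  (Primrec.list_getD d).to_comp.comp hf hg
@[fun_prop] theorem c_range {f : α → ℕ} (hf : Computable f) :
    Computable fun x => List.range (f x) := Primrec.list_range.to_comp.comp hf
@[fun_prop] theorem c_evaln {k : α → ℕ} {c : α → Nat.Partrec.Code} {n : α → ℕ}
    (hk : Computable k) (hc : Computable c) (hn : Computable n) :
    Computable fun x => Nat.Partrec.Code.evaln (k x) (c x) (n x) :=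
  Nat.Partrec.Code.primrec_evaln.to_comp.comp ((hk.pair hc).pair hn)
@[fun_prop] theorem c_ite' {p : α → Prop} {d : ∀ a, Decidable (p a)} {f g : α → β}
    (hp : ComputablePred p) (hf : Computable f) (hg : Computable g) :
    Computable fun a => @ite _ (p a) (d a) (f a) (g a) :=
  (c_ite hp hf hg).of_eq fun a => by congr
@[fun_prop] theorem c_decide {p : α → Prop} {d : ∀ a, Decidable (p a)}
    (hp : ComputablePred p) : Computable fun a => @decide (p a) (d a) :=
  hp.decide.of_eq fun a => by congr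

theorem c_foldr_range {n : α → ℕ} {b : α → γ} {h : α → ℕ → γ → γ} (hn : Computable n)
    (hb : Computable b) (hh : Computable fun z : α × ℕ × γ => h z.1 z.2.1 z.2.2) :
    Computable fun a => Nat.rec (motive := fun _ => γ) (b a) (h a) (n a) :=
  Computable.nat_rec (h := fun a (q : ℕ × γ) => h a q.1 q.2) hn hb hh.to₂

@[fun_prop] theorem c_foldr {L : α → List β} {b : α → γ} {h : α → β → γ → γ} [Inhabited β]
    (hL : Computable L) (hb : Computable b)
    (hh : Computable fun z : α × β × γ => h z.1 z.2.1 z.2.2) :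
    Computable fun a => (L a).foldr (h a) (b a) := by
  have := c_foldr_range (n := fun a => (L a).length) (b := b)
    (h := fun a j c => h a ((L a).getD ((L a).length - 1 - j) default) c) (by fun_prop) hb
    (hh.comp (g := fun z : α × ℕ × γ =>
      (z.1, (L z.1).getD ((L z.1).length - 1 - z.2.1) default, z.2.2)) (by fun_prop))
  refine this.of_eq fun a => ?_
  have key : ∀ (l : List β) (m : ℕ), m ≤ l.length → Nat.rec (motive := fun _ => γ) (b a)
      (fun j c => h a (l.getD (l.length - 1 - j) default) c) m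
      = (l.drop (l.length - m)).foldr (h a) (b a) := by
    intro l m
    induction m with
    | zero => simp
    | succ m ih =>
      intro hm
      have e : l.length - m = (l.length - 1 - m) + 1 := by omega
      have e' : l.length - (m + 1) = l.length - 1 - m := by omega
      simp only [ih (by omega)]
      rw [e', List.drop_eq_getElem_cons (i := l.length - 1 - m) (by omega), List.foldr_cons, ← e,
        List.getD_eq_getElem _ _ (by omega)]
  simpa using key (L a) _ le_rfl

@[fun_prop] theorem c_map {L : α → List β} {h : α → β → γ} [Inhabited β]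
    (hL : Computable L) (hh : Computable fun z : α × β => h z.1 z.2) :
    Computable fun a => (L a).map (h a) := by
  have : Computable fun a => (L a).foldr (fun x c => h a x :: c) [] := by fun_prop
  refine this.of_eq fun a => ?_
  induction L a with
  | nil => rfl
  | cons x l ih => simp [ih]

@[fun_prop] theorem c_take {L : α → List ℕ} {n : α → ℕ} (hL : Computable L) (hn : Computable n) :
    Computable fun a => (L a).take (n a) := by
  have : Computable fun a => (List.range (if n a < (L a).length then n a else (L a).length)).map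
      fun j => (L a).getD j 0 :=
    c_map (c_range (c_ite' (cp_lt hn (c_length hL)) hn (c_length hL))) (by fun_prop)
  refine this.of_eq fun a => List.ext_getElem ?_ ?_
  · simp only [List.length_map, List.length_range, List.length_take]
    split_ifs <;> omega
  · intro i h1 h2
    simp only [List.length_take] at h2
    simp [List.getD_eq_getElem?_getD, show i < (L a).length by omega]

variable {p q : α → Prop}

@[fun_prop] theorem p_const (P : Prop) : ComputablePred fun _ : α => P := cp_const P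
@[fun_prop] theorem p_comp {p : β → Prop} {g : α → β} (hp : ComputablePred p)
    (hg : Computable g) : ComputablePred fun a => p (g a) := cp_comp hp hg
@[fun_prop] theorem p_and (hp : ComputablePred p) (hq : ComputablePred q) :
    ComputablePred fun a => p a ∧ q a := cp_and hp hq
@[fun_prop] theorem p_or (hp : ComputablePred p) (hq : ComputablePred q) :
    ComputablePred fun a => p a ∨ q a := cp_or hp hq
@[fun_prop] theorem p_imp (hp : ComputablePred p) (hq : ComputablePred q) :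
    ComputablePred fun a => p a → q a := cp_imp hp hq
@[fun_prop] theorem p_not (hp : ComputablePred p) : ComputablePred fun a => ¬ p a := hp.not
@[fun_prop] theorem p_eq {f g : α → β} (hf : Computable f) (hg : Computable g) :
    ComputablePred fun a => f a = g a := cp_eq hf hg
@[fun_prop] theorem p_ne {f g : α → β} (hf : Computable f) (hg : Computable g) :
    ComputablePred fun a => f a ≠ g a := (cp_eq hf hg).not
@[fun_prop] theorem p_lt {f g : α → ℕ} (hf : Computable f) (hg : Computable g) :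
    ComputablePred fun a => f a < g a := cp_lt hf hg
@[fun_prop] theorem p_le {f g : α → ℕ} (hf : Computable f) (hg : Computable g) :
    ComputablePred fun a => f a ≤ g a := (cp_lt hg hf).not.of_eq fun _ => not_lt

/-- Bounded universal quantifier. -/
def Ball (n : ℕ) (P : ℕ → Prop) : Prop := ∀ j < n, P j

@[fun_prop] theorem p_ball {n : α → ℕ} {P : α → ℕ → Prop} (hn : Computable n)
    (hP : ComputablePred fun z : α × ℕ => P z.1 z.2) : ComputablePred fun a => Ball (n a) (P a) :=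
  cp_ball hP hn

@[fun_prop] theorem d_const (P : Prop) : Dl fun _ : α => P := .of_cp (cp_const P)
@[fun_prop] theorem d_comp {p : β → Prop} {g : α → β} (hp : Dl p)
    (hg : Computable g) : Dl fun a => p (g a) := hp.comp hg
@[fun_prop] theorem d_and (hp : Dl p) (hq : Dl q) : Dl fun a => p a ∧ q a := hp.and hq
@[fun_prop] theorem d_or (hp : Dl p) (hq : Dl q) : Dl fun a => p a ∨ q a := hp.or hq
@[fun_prop] theorem d_imp (hp : Dl p) (hq : Dl q) : Dl fun a => p a → q a := hp.imp hq
@[fun_prop] theorem d_iff (hp : Dl p) (hq : Dl q) : Dl fun a => p a ↔ q a := hp.iff hq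
@[fun_prop] theorem d_not (hp : Dl p) : Dl fun a => ¬ p a := hp.not
@[fun_prop] theorem d_ex {δ : Type} [Denumerable δ] {P : α → δ → Prop}
    (h : Dl fun z : α × δ => P z.1 z.2) : Dl fun a => ∃ x, P a x := h.ex
@[fun_prop] theorem d_all {δ : Type} [Denumerable δ] {P : α → δ → Prop}
    (h : Dl fun z : α × δ => P z.1 z.2) : Dl fun a => ∀ x, P a x := h.all
@[fun_prop] theorem d_eq {f g : α → β} (hf : Computable f) (hg : Computable g) :
    Dl fun a => f a = g a := .of_cp (cp_eq hf hg)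
@[fun_prop] theorem d_ne {f g : α → β} (hf : Computable f) (hg : Computable g) :
    Dl fun a => f a ≠ g a := .of_cp (cp_eq hf hg).not
@[fun_prop] theorem d_lt {f g : α → ℕ} (hf : Computable f) (hg : Computable g) :
    Dl fun a => f a < g a := .of_cp (cp_lt hf hg)
@[fun_prop] theorem d_le {f g : α → ℕ} (hf : Computable f) (hg : Computable g) :
    Dl fun a => f a ≤ g a := .of_cp (p_le hf hg)

@[fun_prop] theorem s_const (P : Prop) : Sg fun _ : α => P := .of_cp (cp_const P)
@[fun_prop] theorem s_comp {p : β → Prop} {g : α → β} (hp : Sg p)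
    (hg : Computable g) : Sg fun a => p (g a) := hp.comp hg
@[fun_prop] theorem s_and (hp : Sg p) (hq : Sg q) : Sg fun a => p a ∧ q a := hp.and hq
@[fun_prop] theorem s_or (hp : Sg p) (hq : Sg q) : Sg fun a => p a ∨ q a := hp.or hq
@[fun_prop] theorem s_imp (hp : Dl p) (hq : Sg q) : Sg fun a => p a → q a :=
  (hp.2.or hq).of_eq fun a => by tauto
@[fun_prop] theorem s_iff (hp : Dl p) (hq : Dl q) : Sg fun a => p a ↔ q a := (hp.iff hq).1
@[fun_prop] theorem s_not (hp : Dl p) : Sg fun a => ¬ p a := hp.2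
@[fun_prop] theorem s_ex {δ : Type} [Denumerable δ] {P : α → δ → Prop}
    (h : Sg fun z : α × δ => P z.1 z.2) : Sg fun a => ∃ x, P a x := h.ex
@[fun_prop] theorem s_all {δ : Type} [Denumerable δ] {P : α → δ → Prop}
    (h : Sg fun z : α × δ => P z.1 z.2) : Sg fun a => ∀ x, P a x := h.all
@[fun_prop] theorem s_eq {f g : α → β} (hf : Computable f) (hg : Computable g) :
    Sg fun a => f a = g a := .of_cp (cp_eq hf hg)
@[fun_prop] theorem s_ne {f g : α → β} (hf : Computable f) (hg : Computable g) :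
    Sg fun a => f a ≠ g a := .of_cp (cp_eq hf hg).not
@[fun_prop] theorem s_lt {f g : α → ℕ} (hf : Computable f) (hg : Computable g) :
    Sg fun a => f a < g a := .of_cp (cp_lt hf hg)
@[fun_prop] theorem s_le {f g : α → ℕ} (hf : Computable f) (hg : Computable g) :
    Sg fun a => f a ≤ g a := .of_cp (p_le hf hg)

end

end Pool.Agent.MP_9125cf_lc

end

section

set_option autoImplicit false

namespace Pool.Agent.MP_9125cf_lc

open Classical Nat.Partrec Denumerable

/-- The `e`-th program outputs `v` on input `t`. -/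
def Ev (e t v : ℕ) : Prop := ∃ k, Code.evaln k (ofNat Code e) t = some v

theorem ev_iff {e t v : ℕ} : Ev e t v ↔ (ofNat Code e).eval t = Part.some v := by
  rw [Part.eq_some_iff, Code.evaln_complete]
  rfl

@[fun_prop] theorem d_ev {α : Type} [Primcodable α] {e t v : α → ℕ} (he : Computable e)
    (ht : Computable t) (hv : Computable v) : Dl fun a => Ev (e a) (t a) (v a) := by
  unfold Ev
  fun_prop

/-- The structure described by an index. -/
def Hold (e : ℕ) : Str := fun i x y => Ev e (Nat.pair i (Nat.pair x y)) 1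

/-- Indices of structures. -/
def Tot (e : ℕ) : Prop :=
  ∀ i x y, Ev e (Nat.pair i (Nat.pair x y)) 1 ∨ Ev e (Nat.pair i (Nat.pair x y)) 0

@[fun_prop] theorem d_hold {α : Type} [Primcodable α] {e i x y : α → ℕ} (he : Computable e)
    (hi : Computable i) (hx : Computable x) (hy : Computable y) :
    Dl fun a => Hold (e a) (i a) (x a) (y a) := by
  unfold Hold
  fun_prop

@[fun_prop] theorem d_tot {α : Type} [Primcodable α] {e : α → ℕ} (he : Computable e) :
    Dl fun a => Tot (e a) := by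
  unfold Tot
  fun_prop

theorem codes_iff {e : ℕ} {M : Str} : Codes e M ↔ Tot e ∧ M = Hold e := by
  unfold Codes Tot Hold
  simp only [ev_iff]
  constructor
  · intro h
    refine ⟨fun i x y => ?_, ?_⟩
    · by_cases hM : M i x y
      · exact Or.inl ((h i x y).1 hM)
      · exact Or.inr ((h i x y).2 hM)
    · funext i x y
      refine propext ⟨(h i x y).1, fun h1 => by_contra fun h2 => ?_⟩
      have := (h i x y).2 h2
      rw [h1] at this
      simp at this
  · rintro ⟨h, rfl⟩ i x y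
    exact ⟨id, fun h' => (h i x y).resolve_left h'⟩

theorem mem_indexSet {K : Set Str} {e : ℕ} : e ∈ indexSet K ↔ Tot e ∧ Hold e ∈ K := by
  constructor
  · rintro ⟨M, h1, h2⟩
    obtain ⟨h3, rfl⟩ := codes_iff.1 h2
    exact ⟨h3, h1⟩
  · rintro ⟨h1, h2⟩
    exact ⟨_, h2, codes_iff.2 ⟨h1, rfl⟩⟩

theorem mem_isoRel {K : Set Str} {q : ℕ × ℕ} : q ∈ isoRel K ↔
    q.1 ∈ indexSet K ∧ q.2 ∈ indexSet K ∧ Iso (Hold q.1) (Hold q.2) := by
  simp only [mem_indexSet]
  constructor
  · rintro ⟨M, h1, N, h2, h3, h4, h5⟩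
    obtain ⟨a, rfl⟩ := codes_iff.1 h3
    obtain ⟨b, rfl⟩ := codes_iff.1 h4
    exact ⟨⟨a, h1⟩, ⟨b, h2⟩, h5⟩
  · rintro ⟨⟨a, h1⟩, ⟨b, h2⟩, h5⟩
    exact ⟨_, h1, _, h2, codes_iff.2 ⟨a, rfl⟩, codes_iff.2 ⟨b, rfl⟩, h5⟩

theorem exists_index {X : ℕ → Str}
    (hX : ComputablePred fun q : ℕ × ℕ × ℕ × ℕ => X q.1 q.2.1 q.2.2.1 q.2.2.2) :
    ∃ g : ℕ → ℕ, Computable g ∧ ∀ i, Codes (g i) (X i) := by
  have h : Computable fun t : ℕ => if X t.unpair.1 t.unpair.2.unpair.1 t.unpair.2.unpair.2.unpair.1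
      t.unpair.2.unpair.2.unpair.2 then 1 else 0 := by fun_prop
  obtain ⟨c, hc⟩ := Code.exists_code.1 (Partrec.nat_iff.1 h.partrec)
  refine ⟨fun i => Encodable.encode (Code.curry c i), Computable.encode.comp
    (Code.primrec₂_curry.to_comp.comp (Computable.const c) Computable.id), fun i j x y => ?_⟩
  simp only [ofNat_encode, Code.eval_curry, hc]
  constructor <;> intro h <;> simp [h]

theorem IsComp.cp {M : Str} (h : IsComp M) :
    ComputablePred fun q : ℕ × ℕ × ℕ => M q.1 q.2.1 q.2.2 := by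
  obtain ⟨e, he⟩ := h
  have h1 : Partrec fun q : ℕ × ℕ × ℕ => (ofNat Code e).eval (Nat.pair q.1 (Nat.pair q.2.1 q.2.2)) :=
    Code.eval_part.comp (Computable.const _) (by fun_prop)
  have h2 : Computable fun q : ℕ × ℕ × ℕ => if M q.1 q.2.1 q.2.2 then 1 else 0 :=
    h1.of_eq_tot fun q => by
      by_cases hM : M q.1 q.2.1 q.2.2
      · simp [hM, (he _ _ _).1 hM]
      · simp [hM, (he _ _ _).2 hM]
  exact (cp_eq h2 (Computable.const 1)).of_eq fun q => by simp

theorem isComp_of_cp {M : Str} (h : ComputablePred fun q : ℕ × ℕ × ℕ => M q.1 q.2.1 q.2.2) :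
    IsComp M := by
  obtain ⟨g, -, hg⟩ := exists_index (X := fun _ => M) (by fun_prop)
  exact ⟨g 0, hg 0⟩

theorem Iso.refl (M : Str) : Iso M M := ⟨Equiv.refl _, fun _ _ _ => Iff.rfl⟩

theorem Iso.symm {M N : Str} (h : Iso M N) : Iso N M := by
  obtain ⟨g, hg⟩ := h
  exact ⟨g.symm, fun i x y => by simp [hg]⟩

theorem Iso.trans {M N P : Str} (h : Iso M N) (h' : Iso N P) : Iso M P := by
  obtain ⟨g, hg⟩ := h
  obtain ⟨g', hg'⟩ := h'
  exact ⟨g.trans g', fun i x y => (hg i x y).trans (hg' _ _ _)⟩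

theorem sg_fun2 {α γ δ : Type} [Primcodable α] [Denumerable γ] [Denumerable δ]
    {Q : α → γ → δ → γ → δ → Prop}
    (hQ : Sg fun z : α × γ × δ × γ × δ => Q z.1 z.2.1 z.2.2.1 z.2.2.2.1 z.2.2.2.2) :
    Sg fun a => ∃ h : γ → δ, ∀ x y, Q a x (h x) y (h y) := by
  have : Sg fun z : α × List ℕ => ∀ x y : ℕ, x < z.2.length → y < z.2.length →
      Q z.1 (ofNat γ x) (ofNat δ (z.2.getD x 0)) (ofNat γ y) (ofNat δ (z.2.getD y 0)) := by
    fun_prop
  refine this.ex_fun.of_eq fun a => ⟨?_, ?_⟩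
  · rintro ⟨g, hg⟩
    refine ⟨fun x => ofNat δ (g (Encodable.encode x)), fun x y => ?_⟩
    have := hg (Encodable.encode x + Encodable.encode y + 1) (Encodable.encode x)
      (Encodable.encode y) (by simp) (by simp)
    simpa [List.getD_eq_getElem?_getD,
      show Encodable.encode x < Encodable.encode x + Encodable.encode y + 1 by omega,
      show Encodable.encode y < Encodable.encode x + Encodable.encode y + 1 by omega] using this
  · rintro ⟨h, hh⟩
    refine ⟨fun x => Encodable.encode (h (ofNat γ x)), fun n x y hx hy => ?_⟩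
    simp only [List.length_map, List.length_range] at hx hy
    simpa [List.getD_eq_getElem?_getD, hx, hy] using hh _ _

theorem sg_iso {α : Type} [Primcodable α] {M N : α → Str}
    (hM : Dl fun z : α × ℕ × ℕ × ℕ => M z.1 z.2.1 z.2.2.1 z.2.2.2)
    (hN : Dl fun z : α × ℕ × ℕ × ℕ => N z.1 z.2.1 z.2.2.1 z.2.2.2) :
    Sg fun a => Iso (M a) (N a) := by
  refine (sg_fun2 (γ := ℕ) (δ := ℕ × ℕ) (Q := fun a x u y v =>
    (u.1 = y ↔ v.2 = x) ∧ ∀ i, M a i x y ↔ N a i u.1 v.1) (by fun_prop)).of_eq fun a => ⟨?_, ?_⟩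
  · rintro ⟨h, hh⟩
    exact ⟨⟨fun x => (h x).1, fun x => (h x).2, fun x => (hh x _).1.1 rfl,
      fun y => (hh _ y).1.2 rfl⟩, fun i x y => (hh x y).2 i⟩
  · rintro ⟨g, hg⟩
    exact ⟨fun x => (g x, g.symm x), fun x y => ⟨g.eq_symm_apply.symm.trans eq_comm,
      fun i => hg i x y⟩⟩

end Pool.Agent.MP_9125cf_lc

end

section

set_option autoImplicit false

namespace Pool.Agent.MP_9125cf_lc

open Classical

/-- Multiplication of a reduced word by a generator of order two. -/
def act (σ : ℕ) (w : List ℕ) : List ℕ := if w.head? = some σ then w.tail else σ :: w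

/-- Reduction of a word. -/
def red (L : List ℕ) : List ℕ := L.foldr act []

/-- Reduced words. -/
abbrev Rd (w : List ℕ) : Prop := w.IsChain (· ≠ ·)

theorem Rd.act {w : List ℕ} (h : Rd w) (σ : ℕ) : Rd (act σ w) := by
  unfold MP_9125cf_lc.act
  split_ifs with h1
  · exact List.IsChain.tail h
  · exact List.IsChain.cons h fun y hy e => h1 (by rw [e]; exact hy)

theorem mem_act {w : List ℕ} {σ τ : ℕ} (h : τ ∈ act σ w) : τ = σ ∨ τ ∈ w := by
  unfold act at h
  split_ifs at h
  · exact Or.inr (List.mem_of_mem_tail h)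
  · simpa using h

theorem act_act {w : List ℕ} (h : Rd w) (σ : ℕ) : act σ (act σ w) = w := by
  by_cases h1 : w.head? = some σ
  · obtain ⟨t, rfl⟩ := List.head?_eq_some_iff.1 h1
    have : ¬ t.head? = some σ := fun e => (List.isChain_cons.1 h).1 σ e rfl
    simp [act, this]
  · simp [act, h1]

theorem rd_foldr (L : List ℕ) {w : List ℕ} (h : Rd w) : Rd (L.foldr act w) := by
  induction L with
  | nil => exact h
  | cons σ L ih => exact ih.act σ

theorem mem_foldr {L w : List ℕ} {τ : ℕ} (h : τ ∈ L.foldr act w) : τ ∈ L ∨ τ ∈ w := by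
  induction L with
  | nil => exact Or.inr h
  | cons σ L ih =>
    rcases mem_act h with h | h
    · simp [h]
    · rcases ih h with h | h <;> simp [h]

theorem rd_red (L : List ℕ) : Rd (red L) := rd_foldr L List.IsChain.nil

theorem mem_red {L : List ℕ} {τ : ℕ} (h : τ ∈ red L) : τ ∈ L := by
  simpa using mem_foldr h

theorem red_cons (σ : ℕ) (L : List ℕ) : red (σ :: L) = act σ (red L) := rfl

theorem red_of_rd {w : List ℕ} (h : Rd w) : red w = w := by
  induction w with
  | nil => rfl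
  | cons σ w ih =>
    have : ¬ w.head? = some σ := fun e => (List.isChain_cons.1 h).1 σ e rfl
    rw [red_cons, ih (List.isChain_cons.1 h).2]
    simp [act, this]

theorem length_red (L : List ℕ) : (red L).length ≤ L.length := by
  induction L with
  | nil => simp [red]
  | cons σ L ih =>
    rw [red_cons, act]
    split_ifs <;> simp <;> omega

/-- A system of torsors over free products of groups of order two. -/
structure Sys (lev par : ℕ → ℕ) (α : Type) where
  lv : α → ℕ
  f : ℕ → α → α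
  p : α → α
  lev_par : ∀ σ n, lev σ = n + 1 → lev (par σ) = n
  lv_f : ∀ σ x, lv (f σ x) = lv x
  f_f : ∀ σ x, lev σ = lv x → f σ (f σ x) = x
  lv_p : ∀ x n, lv x = n + 1 → lv (p x) = n
  p_f : ∀ σ x, lev σ = lv x → 0 < lv x → p (f σ x) = f (par σ) (p x)
  ne : ∀ n, ∃ x, lv x = n
  conn : ∀ x y, lv x = lv y → ∃ L : List ℕ, (∀ σ ∈ L, lev σ = lv x) ∧ L.foldr f x = y
  free : ∀ x (L : List ℕ), (∀ σ ∈ L, lev σ = lv x) → Rd L → L.foldr f x = x → L = []

/-- All letters have level `n`. -/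
def At (lev : ℕ → ℕ) (n : ℕ) (L : List ℕ) : Prop := ∀ σ ∈ L, lev σ = n

theorem At.red {lev : ℕ → ℕ} {n : ℕ} {L : List ℕ} (h : At lev n L) : At lev n (red L) :=
  fun σ hσ => h σ (mem_red hσ)

theorem At.append {lev : ℕ → ℕ} {n : ℕ} {L L' : List ℕ} (h : At lev n L) (h' : At lev n L') :
    At lev n (L ++ L') := fun σ hσ => (List.mem_append.1 hσ).elim (h σ) (h' σ)

theorem At.reverse {lev : ℕ → ℕ} {n : ℕ} {L : List ℕ} (h : At lev n L) :
    At lev n L.reverse := fun σ hσ => h σ (List.mem_reverse.1 hσ)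

theorem At.sub {lev : ℕ → ℕ} {n : ℕ} {L L' : List ℕ} (h : At lev n L) (h' : L' ⊆ L) :
    At lev n L' := fun σ hσ => h σ (h' hσ)

namespace Sys

variable {lev par : ℕ → ℕ} {α β : Type} (S : Sys lev par α) (S' : Sys lev par β)

/-- Action of a word. -/
def app (L : List ℕ) (x : α) : α := L.foldr S.f x

@[simp] theorem app_nil (x : α) : S.app [] x = x := rfl
@[simp] theorem app_cons (σ : ℕ) (L : List ℕ) (x : α) :
    S.app (σ :: L) x = S.f σ (S.app L x) := rfl
theorem app_append (L L' : List ℕ) (x : α) : S.app (L ++ L') x = S.app L (S.app L' x) :=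
  List.foldr_append

@[simp] theorem lv_app (L : List ℕ) (x : α) : S.lv (S.app L x) = S.lv x := by
  induction L with
  | nil => rfl
  | cons σ L ih => rw [app_cons, S.lv_f, ih]

theorem app_act {w : List ℕ} {σ : ℕ} {x : α} (hσ : lev σ = S.lv x) :
    S.app (act σ w) x = S.f σ (S.app w x) := by
  unfold act
  split_ifs with h
  · obtain ⟨t, rfl⟩ := List.head?_eq_some_iff.1 h
    simp [S.f_f σ (S.app t x) (by simpa using hσ)]
  · rfl

theorem app_red {L : List ℕ} {x : α} (h : At lev (S.lv x) L) : S.app (red L) x = S.app L x := by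
  induction L with
  | nil => rfl
  | cons σ L ih =>
    rw [red_cons, S.app_act (h σ (by simp)), ih (h.sub (by simp)), app_cons]

theorem app_rev {L : List ℕ} {x : α} (h : At lev (S.lv x) L) :
    S.app L.reverse (S.app L x) = x := by
  induction L with
  | nil => rfl
  | cons σ L ih =>
    rw [List.reverse_cons, app_append, app_cons, app_cons, app_nil,
      S.f_f _ _ (by simpa using h σ (by simp)), ih (h.sub (by simp))]

theorem app_rev' {L : List ℕ} {x : α} (h : At lev (S.lv x) L) :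
    S.app L (S.app L.reverse x) = x := by
  simpa using S.app_rev h.reverse

theorem suffix_red {L : List ℕ} {x : α} (h : At lev (S.lv x) L) {t : List ℕ}
    (ht : t <:+ red L) : ∃ t', t' <:+ L ∧ S.app t' x = S.app t x := by
  induction L generalizing t with
  | nil => exact ⟨t, ht, rfl⟩
  | cons σ L ih =>
    have h' : At lev (S.lv x) L := h.sub (by simp)
    have step : ∀ t, t <:+ red L → ∃ t', t' <:+ σ :: L ∧ S.app t' x = S.app t x := fun t ht => by
      obtain ⟨t', h1, h2⟩ := ih h' ht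
      exact ⟨t', h1.trans (List.suffix_cons _ _), h2⟩
    rw [red_cons, act] at ht
    split_ifs at ht with h1
    · exact step t (ht.trans (List.tail_suffix _))
    · rcases List.suffix_cons_iff.1 ht with rfl | ht
      · exact ⟨_, List.suffix_refl _, by rw [app_cons, app_cons, S.app_red h']⟩
      · exact step t ht

theorem uniq {u v : List ℕ} {x : α} (hu : Rd u) (hv : Rd v) (au : At lev (S.lv x) u)
    (av : At lev (S.lv x) v) (h : S.app u x = S.app v x) : u = v := by
  induction u generalizing v with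
  | nil => exact (S.free x v av hv h.symm).symm
  | cons σ u ih =>
    have hσ := au σ (by simp)
    have e : u = act σ v := by
      refine ih (List.isChain_cons.1 hu).2 (hv.act σ) (au.sub (by simp)) (fun τ hτ => ?_) ?_
      · rcases mem_act hτ with rfl | h
        · exact hσ
        · exact av τ h
      · rw [S.app_act hσ, ← h, app_cons, S.f_f _ _ (by simpa using hσ)]
    have e2 := act_act hv σ
    rw [← e] at e2
    have : ¬ u.head? = some σ := fun e => (List.isChain_cons.1 hu).1 σ e rfl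
    simpa [act, this] using e2

theorem exists_wd (x y : α) : ∃ w, S.lv x = S.lv y → Rd w ∧ At lev (S.lv x) w ∧ S.app w x = y := by
  by_cases h : S.lv x = S.lv y
  · obtain ⟨L, h1, h2⟩ := S.conn x y h
    exact ⟨red L, fun _ => ⟨rd_red L, At.red h1, (S.app_red h1).trans h2⟩⟩
  · exact ⟨[], fun h' => absurd h' h⟩

/-- The reduced word leading from `x` to `y`. -/
noncomputable def wd (x y : α) : List ℕ := (S.exists_wd x y).choose

theorem wd_spec {x y : α} (h : S.lv x = S.lv y) :
    Rd (S.wd x y) ∧ At lev (S.lv x) (S.wd x y) ∧ S.app (S.wd x y) x = y :=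
  (S.exists_wd x y).choose_spec h

theorem wd_app {x : α} {L : List ℕ} (h : At lev (S.lv x) L) : S.wd x (S.app L x) = red L := by
  obtain ⟨h1, h2, h3⟩ := S.wd_spec (x := x) (y := S.app L x) (by simp)
  exact S.uniq h1 (rd_red L) h2 h.red (h3.trans (S.app_red h).symm)

include S in
theorem at_par {n : ℕ} {L : List ℕ} (h : At lev (n + 1) L) : At lev n (L.map par) := by
  intro σ hσ
  obtain ⟨τ, h1, rfl⟩ := List.mem_map.1 hσ
  exact S.lev_par τ n (h τ h1)

theorem p_app {x : α} {L : List ℕ} (h : At lev (S.lv x) L) (hx : 0 < S.lv x) :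
    S.p (S.app L x) = S.app (L.map par) (S.p x) := by
  induction L with
  | nil => rfl
  | cons σ L ih =>
    rw [app_cons, S.p_f _ _ (by simpa using h σ (by simp)) (by simpa using hx),
      ih (h.sub (by simp))]
    rfl

/-- The level isomorphism sending `x` to `y`. -/
noncomputable def tau (x : α) (y : β) (z : α) : β := S'.app (S.wd x z) y

theorem tau_app {x : α} {y : β} (hy : S'.lv y = S.lv x) {L : List ℕ} (h : At lev (S.lv x) L) :
    tau S S' x y (S.app L x) = S'.app L y := by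
  rw [tau, S.wd_app h, S'.app_red (hy ▸ h)]

/-- Morphisms. -/
structure Mor (g : α → β) : Prop where
  lv : ∀ x, S'.lv (g x) = S.lv x
  f : ∀ σ x, lev σ = S.lv x → g (S.f σ x) = S'.f σ (g x)
  p : ∀ x, 0 < S.lv x → g (S.p x) = S'.p (g x)

variable {S S'}

theorem Mor.app {g : α → β} (h : Mor S S' g) {x : α} {L : List ℕ} (hL : At lev (S.lv x) L) :
    g (S.app L x) = S'.app L (g x) := by
  induction L with
  | nil => rfl
  | cons σ L ih =>
    rw [app_cons, h.f _ _ (by simpa using hL σ (by simp)), ih (hL.sub (by simp)), app_cons]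

theorem Mor.bij {g : α → β} (h : Mor S S' g) : Function.Bijective g := by
  constructor
  · intro x y e
    have hl : S.lv x = S.lv y := by rw [← h.lv, e, h.lv]
    obtain ⟨h1, h2, h3⟩ := S.wd_spec hl
    have := S'.free (g x) (S.wd x y) (by rw [h.lv]; exact h2) h1
      ((h.app h2).symm.trans (by rw [h3, e]))
    rw [this] at h3
    exact h3
  · intro z
    obtain ⟨x, hx⟩ := S.ne (S'.lv z)
    obtain ⟨-, h2, h3⟩ := S'.wd_spec (x := g x) (y := z) (by rw [h.lv, hx])
    rw [h.lv] at h2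
    exact ⟨_, (h.app h2).trans h3⟩

variable (S S')

/-- `u'` is a child of `u` in the tree of level isomorphisms. -/
def Ch (u' u : α × β) : Prop :=
  S.lv u'.1 = S.lv u.1 + 1 ∧ S'.lv u'.2 = S.lv u.1 + 1 ∧ S'.lv u.2 = S.lv u.1 ∧
    ∃ L, At lev (S.lv u.1) L ∧ S.app L u.1 = S.p u'.1 ∧ S'.app L u.2 = S'.p u'.2

theorem mor_of_chain0 (c : ℕ → α × β) (h0 : S.lv (c 0).1 = 0)
    (hc : ∀ n, Ch S S' (c (n + 1)) (c n)) : ∃ g, Mor S S' g ∧ ∀ n, g (c n).1 = (c n).2 := by
  have l1 : ∀ n, S.lv (c n).1 = n := by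
    intro n
    induction n with
    | zero => exact h0
    | succ n ih => rw [(hc n).1, ih]
  have l2 : ∀ n, S'.lv (c n).2 = S.lv (c n).1 := fun n => (hc n).2.2.1
  have key : ∀ n L, At lev n L →
      tau S S' (c n).1 (c n).2 (S.app L (c n).1) = S'.app L (c n).2 := by
    intro n L hL
    rw [tau_app S S' (l2 n) (by rw [l1]; exact hL)]
  have rep : ∀ z, ∃ n L, At lev n L ∧ S.app L (c n).1 = z := fun z => by
    obtain ⟨-, h2, h3⟩ := S.wd_spec (x := (c (S.lv z)).1) (y := z) (l1 _)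
    exact ⟨_, _, by rwa [l1] at h2, h3⟩
  have key' : ∀ n L, At lev n L → (fun z => tau S S' (c (S.lv z)).1 (c (S.lv z)).2 z)
      (S.app L (c n).1) = S'.app L (c n).2 := by
    intro n L hL
    simp only [lv_app, l1, key n L hL]
  have hlv : ∀ z, S'.lv ((fun z => tau S S' (c (S.lv z)).1 (c (S.lv z)).2 z) z) = S.lv z :=
    fun z => by simp only [tau, lv_app, l2, l1]
  generalize (fun z => tau S S' (c (S.lv z)).1 (c (S.lv z)).2 z) = g at key' hlv
  refine ⟨g, ⟨hlv, fun σ z hσ => ?_, fun z hz => ?_⟩, fun n => key' n [] (by simp [At])⟩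
  · obtain ⟨n, L, h1, rfl⟩ := rep z
    rw [lv_app, l1] at hσ
    exact (key' n (σ :: L) (fun τ hτ => by
      rcases List.mem_cons.1 hτ with rfl | h
      · exact hσ
      · exact h1 τ h)).trans (by rw [key' n L h1, app_cons])
  · obtain ⟨n, L, h1, rfl⟩ := rep z
    rw [lv_app, l1] at hz
    obtain ⟨n, rfl⟩ : ∃ m, n = m + 1 := ⟨n - 1, by omega⟩
    obtain ⟨-, -, -, L', a1, a2, a3⟩ := hc n
    rw [l1] at a1
    rw [key' _ L h1, S.p_app (by rw [l1]; exact h1) (by rw [l1]; omega),
      S'.p_app (by rw [l2, l1]; exact h1) (by rw [l2, l1]; omega), ← a2, ← a3, ← app_append,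
      ← app_append, key' n _ ((S.at_par h1).append a1)]

theorem mor_of_chain (c : ℕ → α × β) (hc : ∀ n, Ch S S' (c (n + 1)) (c n)) :
    ∃ g, Mor S S' g ∧ ∀ n, g (c n).1 = (c n).2 := by
  generalize hm : S.lv (c 0).1 = m
  induction m generalizing c with
  | zero => exact mor_of_chain0 S S' c hm hc
  | succ m ih =>
    have e1 := S.lv_p _ _ hm
    have e2 := S'.lv_p (c 0).2 m ((hc 0).2.2.1.trans hm)
    obtain ⟨g, h1, h2⟩ := ih (fun n => Nat.casesOn n (S.p (c 0).1, S'.p (c 0).2) c)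
      (fun n => by
        cases n with
        | zero => exact ⟨by simp [e1, hm], by simp [e1, (hc 0).2.2.1, hm], by simp [e1, e2],
            [], by simp [At], rfl, rfl⟩
        | succ n => exact hc n) e1
    exact ⟨g, h1, fun n => h2 (n + 1)⟩

/-- A thread through the system. -/
def Thread (e : ℕ → α) : Prop := ∀ n, S.lv (e n) = n ∧ S.p (e (n + 1)) = e n

theorem mor_of_thread {e : ℕ → α} {e' : ℕ → β} (h : S.Thread e) (h' : S'.Thread e') :
    ∃ g, Mor S S' g :=
  (mor_of_chain S S' (fun n => (e n, e' n)) fun n =>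
    ⟨by simp [(h _).1], by simp [(h _).1, (h' _).1], by simp [(h _).1, (h' _).1], [],
      by simp [At], (h n).2.symm, (h' n).2.symm⟩).imp fun _ h => h.1

end Sys

end Pool.Agent.MP_9125cf_lc

end

section

set_option autoImplicit false

namespace Pool.Agent.MP_9125cf_lc

open Classical

theorem red_conj {v : List ℕ} (hv : Rd v) (hne : v ≠ []) (τ : ℕ) :
    (red (τ :: v ++ [τ])).head? = some τ ∨ (red (τ :: v ++ [τ])).getLast? = some τ ∨
      (v.head? = some τ ∧ v.getLast? = some τ ∧ (red (τ :: v ++ [τ])).length < v.length) := by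
  rw [List.cons_append, red_cons]
  by_cases h : v.getLast? = some τ
  · obtain ⟨v0, rfl⟩ := List.getLast?_eq_some_iff.1 h
    have e : red (v0 ++ [τ] ++ [τ]) = v0 := by
      have : red (v0 ++ [τ] ++ [τ]) = red v0 := by simp [red, List.foldr_append, act]
      rw [this, red_of_rd (List.IsChain.left_of_append hv)]
    rw [e, act]
    split_ifs with h1
    · obtain ⟨t, rfl⟩ := List.head?_eq_some_iff.1 h1
      right; right
      exact ⟨rfl, h, by simp⟩
    · simp
  · have : Rd (v ++ [τ]) := List.IsChain.append hv (List.isChain_singleton _) (by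
      intro x hx y hy e
      simp only [List.head?_cons, Option.mem_def, Option.some.injEq] at hy
      exact h (by rw [hy, ← e]; exact hx))
    rw [red_of_rd this, act]
    split_ifs with h1
    · obtain ⟨a, t, rfl⟩ := List.exists_cons_of_ne_nil hne
      right; left
      simp
    · simp

namespace Sys

variable {lev par : ℕ → ℕ} {α : Type} {S : Sys lev par α} {g : α → α}

/-- Points of minimal displacement. -/
def Min (S : Sys lev par α) (g : α → α) (x : α) : Prop :=
  ∀ y, S.lv y = S.lv x → (S.wd x (g x)).length ≤ (S.wd y (g y)).length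

theorem Mor.wd_spec (hg : Mor S S g) (x : α) :
    Rd (S.wd x (g x)) ∧ At lev (S.lv x) (S.wd x (g x)) ∧ S.app (S.wd x (g x)) x = g x :=
  S.wd_spec (hg.lv x).symm

theorem Mor.wd_conj (hg : Mor S S g) {x : α} {t : List ℕ} (ht : At lev (S.lv x) t) :
    S.wd (S.app t x) (g (S.app t x)) = red (t ++ S.wd x (g x) ++ t.reverse) := by
  obtain ⟨-, h2, h3⟩ := hg.wd_spec x
  rw [← S.wd_app (x := S.app t x) (by simpa using (ht.append h2).append ht.reverse),
    app_append, app_append, S.app_rev ht, h3, hg.app ht]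

theorem Mor.wd_g (hg : Mor S S g) (x : α) : S.wd (g x) (g (g x)) = S.wd x (g x) := by
  obtain ⟨h1, h2, h3⟩ := hg.wd_spec x
  have : g (g x) = S.app (S.wd x (g x)) (g x) := by rw [← hg.app h2, h3]
  rw [this, S.wd_app (by rw [hg.lv]; exact h2), red_of_rd h1]

theorem Mor.min_g (hg : Mor S S g) (x : α) : S.Min g (g x) ↔ S.Min g x := by
  simp only [Min, hg.wd_g, hg.lv]

theorem Mor.min_suffix (hg : Mor S S g) {x : α} (hx : S.Min g x) {t : List ℕ}
    (ht : t <:+ S.wd x (g x)) : S.Min g (S.app t x) := by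
  obtain ⟨-, h2, h3⟩ := hg.wd_spec x
  obtain ⟨s, hs⟩ := ht
  have at' : At lev (S.lv x) t := h2.sub (by rw [← hs]; simp)
  have as' : At lev (S.lv x) s := h2.sub (by rw [← hs]; simp)
  intro y hy
  refine le_trans ?_ (hx y (by simpa using hy))
  have : g (S.app t x) = S.app (t ++ s) (S.app t x) := by
    rw [hg.app at', ← h3, ← hs, app_append, app_append]
  rw [this, S.wd_app (by simpa using at'.append as'), ← hs]
  exact (length_red _).trans (by simp [add_comm])

theorem exists_min (S : Sys lev par α) (g : α → α) (n : ℕ) : ∃ x, S.lv x = n ∧ S.Min g x := by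
  obtain ⟨x, hx, h⟩ := (measure fun x => (S.wd x (g x)).length).wf.has_min {x | S.lv x = n}
    (S.ne n)
  exact ⟨x, hx, fun y hy => not_lt.1 (h y (hy.trans hx))⟩

theorem Mor.min_lift (hg : Mor S S g) {x : α} (hx : S.Min g x)
    (hf : ∀ y, S.lv y = S.lv x → g y ≠ y) :
    ∃ x', S.Min g x' ∧ S.lv x' = S.lv x + 1 ∧ S.p x' = x := by
  let C : α → Prop := fun z => ∃ x', S.Min g x' ∧ S.lv x' = S.lv x + 1 ∧ S.p x' = z
  have c1 : ∀ z, C (g z) → C z := by
    rintro z ⟨x', h1, h2, h3⟩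
    obtain ⟨y, rfl⟩ := hg.bij.2 x'
    rw [hg.lv] at h2
    rw [← hg.p y (by omega)] at h3
    exact ⟨y, (hg.min_g y).1 h1, h2, hg.bij.1 h3⟩
  have c2 : ∀ z t, C z → t <:+ S.wd z (g z) → C (S.app t z) := by
    rintro z t ⟨x', h1, h2, rfl⟩ ht
    obtain ⟨-, a2, a3⟩ := hg.wd_spec x'
    have l : S.lv (S.p x') = S.lv x := S.lv_p _ _ h2
    have a4 : At lev (S.lv (S.p x')) ((S.wd x' (g x')).map par) := by
      rw [l]; exact S.at_par (h2 ▸ a2)
    rw [hg.p _ (by omega), ← a3, S.p_app a2 (by omega), S.wd_app a4] at ht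
    obtain ⟨t', b1, b2⟩ := S.suffix_red a4 ht
    obtain ⟨t'', b3, rfl⟩ := List.suffix_map_iff.1 b1
    exact ⟨S.app t'' x', hg.min_suffix h1 b3, by simpa using h2, by
      rw [S.p_app (a2.sub b3.subset) (by omega), b2]⟩
  have c3 : ∀ z τ, lev τ = S.lv z → C z → ((S.wd z (g z)).head? = some τ ∨
      (S.wd z (g z)).getLast? = some τ) → C (S.f τ z) := by
    intro z τ hτ hz h
    rcases h with h | h
    · obtain ⟨s, hs⟩ := List.head?_eq_some_iff.1 h
      have := c2 z s hz (by rw [hs]; exact List.suffix_cons _ _)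
      refine c1 _ ?_
      obtain ⟨-, -, a3⟩ := hg.wd_spec z
      rwa [hg.f _ _ hτ, ← a3, hs, app_cons, S.f_f _ _ (by simpa using hτ)]
    · obtain ⟨s, hs⟩ := List.getLast?_eq_some_iff.1 h
      exact c2 z [τ] hz (by rw [hs]; exact List.suffix_append _ _)
  have nz : ∀ y, S.lv y = S.lv x → S.wd y (g y) ≠ [] := fun y hy e => by
    have := (hg.wd_spec y).2.2
    rw [e] at this
    exact hf y hy this.symm
  have P : ∀ u, Rd u → At lev (S.lv x) u → ∀ τ ∈ u.head?,
      (S.wd (S.app u x) (g (S.app u x))).head? = some τ ∨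
      (S.wd (S.app u x) (g (S.app u x))).getLast? = some τ := by
    intro u
    induction u with
    | nil => simp
    | cons σ u ih =>
      intro h1 h2 τ hτ
      obtain rfl : σ = τ := by simpa using hτ
      have e := hg.wd_conj (x := S.app u x) (t := [σ]) (by simpa [At] using h2 σ (by simp))
      simp only [app_cons, app_nil, List.reverse_singleton, List.singleton_append] at e ⊢
      rw [e]
      rcases red_conj (hg.wd_spec (S.app u x)).1 (nz _ (by simp)) σ with h | h | ⟨a, b, c⟩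
      · exact Or.inl h
      · exact Or.inr h
      · exfalso
        cases u with
        | nil =>
          rw [← e] at c
          exact absurd (hx _ (by simp [S.lv_f])) (not_le.2 c)
        | cons ρ u =>
          have := ih (List.isChain_cons.1 h1).2 (h2.sub (by simp)) ρ rfl
          rw [a, b] at this
          exact (List.isChain_cons.1 h1).1 ρ rfl (by simpa using this)
  have Q : ∀ u, Rd u → At lev (S.lv x) u → C (S.app u x) → C x := by
    intro u
    induction u with
    | nil => exact fun _ _ h => h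
    | cons σ u ih =>
      intro h1 h2 h3
      have hσ : lev σ = S.lv x := h2 σ (by simp)
      have := c3 _ σ (by rw [lv_app]; exact hσ) h3 (P _ h1 h2 σ rfl)
      rw [app_cons, S.f_f _ _ (by simpa using hσ)] at this
      exact ih (List.isChain_cons.1 h1).2 (h2.sub (by simp)) this
  obtain ⟨x', h1, h2⟩ := S.exists_min g (S.lv x + 1)
  obtain ⟨a1, a2, a3⟩ := S.wd_spec (x := x) (y := S.p x') (S.lv_p _ _ h1).symm
  exact Q _ a1 a2 ⟨x', h2, h1, a3.symm⟩

theorem Mor.no_fix (hg : Mor S S g) {x : α} (hx : g x ≠ x) (k : ℕ) :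
    ∀ y, S.lv y = S.lv x + k → g y ≠ y := by
  induction k with
  | zero =>
    intro y hy e
    obtain ⟨-, a2, a3⟩ := S.wd_spec (x := y) (y := x) hy
    exact hx (by rw [← a3, hg.app a2, e])
  | succ k ih =>
    intro y hy e
    exact ih (S.p y) (S.lv_p _ _ hy) (by rw [hg.p y (by omega), e])

theorem lv_iter (S : Sys lev par α) (k : ℕ) : ∀ n x, S.lv x = n + k → S.lv (S.p^[k] x) = n := by
  induction k with
  | zero => intro n x h; exact h
  | succ k ih => intro n x h; exact ih n _ (S.lv_p _ _ h)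

theorem thread_of_seq (S : Sys lev par α) (m : ℕ) (c : ℕ → α) (h1 : ∀ n, S.lv (c n) = n + m)
    (h2 : ∀ n, S.p (c (n + 1)) = c n) : ∃ e, S.Thread e :=
  ⟨fun n => S.p^[m] (c n), fun n => ⟨S.lv_iter m n _ (h1 n), by
    simp only []
    rw [← h2 n, ← Function.iterate_succ_apply' S.p, Function.iterate_succ_apply]⟩⟩

theorem Mor.thread (hg : Mor S S g) {x : α} (hx : g x ≠ x) : ∃ e, S.Thread e := by
  have step : ∀ y : {y // S.Min g y ∧ S.lv x ≤ S.lv y}, ∃ y' : {y // S.Min g y ∧ S.lv x ≤ S.lv y},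
      S.lv y'.1 = S.lv y.1 + 1 ∧ S.p y'.1 = y.1 := by
    rintro ⟨y, h1, h2⟩
    obtain ⟨y', a1, a2, a3⟩ := hg.min_lift h1
      (fun z hz => hg.no_fix hx (S.lv y - S.lv x) z (by omega))
    exact ⟨⟨y', a1, by omega⟩, a2, a3⟩
  choose F hF using step
  obtain ⟨y, h1, h2⟩ := S.exists_min g (S.lv x)
  refine S.thread_of_seq (S.lv x) (fun n => (F^[n] ⟨y, h2, h1.ge⟩).1) (fun n => ?_) fun n => ?_
  · induction n with
    | zero => simpa using h1
    | succ n ih => rw [Function.iterate_succ_apply', (hF _).1, ih]; omega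
  · rw [Function.iterate_succ_apply', (hF _).2]

end Sys

end Pool.Agent.MP_9125cf_lc

end

section

set_option autoImplicit false

namespace Pool.Agent.MP_9125cf_lc

open Classical

theorem sym_cases (i : ℕ) : i = 0 ∨ (∃ n, i = 2 * n + 1) ∨ ∃ σ, i = 2 * σ + 2 := by
  rcases Nat.even_or_odd' i with ⟨k, h | h⟩
  · cases k with
    | zero => exact Or.inl h
    | succ k => exact Or.inr (Or.inr ⟨k, h⟩)
  · exact Or.inr (Or.inl ⟨k, h⟩)

/-- `P` lists the points visited when the word `L` is applied. -/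
def Walk (M : Str) (L P : List ℕ) : Prop :=
  Ball L.length fun j => M (2 * L.getD j 0 + 2) (P.getD (j + 1) 0) (P.getD j 0)

theorem walk_cons {M : Str} {σ : ℕ} {L P : List ℕ} : Walk M (σ :: L) P ↔
    M (2 * σ + 2) (P.getD 1 0) (P.getD 0 0) ∧ Walk M L P.tail := by
  unfold Walk Ball
  rw [List.length_cons, Nat.forall_lt_succ_left]
  cases P <;> simp

theorem getD_tail (P : List ℕ) (j : ℕ) : P.tail.getD j 0 = P.getD (j + 1) 0 := by
  cases P <;> simp

namespace Sys

variable {lev par : ℕ → ℕ} {α β : Type} (S : Sys lev par α) (S' : Sys lev par β)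

/-- The relations of the structure attached to a system. -/
def rel (i : ℕ) (x y : α) : Prop :=
  (i = 0 ∧ 0 < S.lv x ∧ S.p x = y) ∨ (i % 2 = 1 ∧ x = y ∧ S.lv x = i / 2) ∨
    (i ≠ 0 ∧ i % 2 = 0 ∧ lev (i / 2 - 1) = S.lv x ∧ S.f (i / 2 - 1) x = y)

@[simp] theorem rel_zero (x y : α) : S.rel 0 x y ↔ 0 < S.lv x ∧ S.p x = y := by simp [rel]

@[simp] theorem rel_odd (n : ℕ) (x y : α) : S.rel (2 * n + 1) x y ↔ x = y ∧ S.lv x = n := by
  have h1 : (2 * n + 1) % 2 = 1 := by omega
  have h2 : (2 * n + 1) / 2 = n := by omega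
  simp [rel, h1, h2]

@[simp] theorem rel_even (σ : ℕ) (x y : α) :
    S.rel (2 * σ + 2) x y ↔ lev σ = S.lv x ∧ S.f σ x = y := by
  have h1 : (2 * σ + 2) % 2 = 0 := by omega
  have h2 : (2 * σ + 2) / 2 - 1 = σ := by omega
  simp only [rel, h1, h2]
  simp

variable {S S'}

theorem mor_of_pres {g : α → β} (h : ∀ i x y, S.rel i x y → S'.rel i (g x) (g y)) :
    Mor S S' g :=
  ⟨fun x => ((S'.rel_odd _ _ _).1 (h (2 * S.lv x + 1) x x (by simp))).2,
    fun σ x hx => ((S'.rel_even _ _ _).1 (h (2 * σ + 2) x _ (by simp [hx]))).2.symm,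
    fun x hx => ((S'.rel_zero _ _).1 (h 0 x _ (by simp [hx]))).2.symm⟩

theorem Mor.pres {g : α → β} (h : Mor S S' g) (i : ℕ) (x y : α) :
    S.rel i x y ↔ S'.rel i (g x) (g y) := by
  rcases sym_cases i with rfl | ⟨n, rfl⟩ | ⟨σ, rfl⟩
  · simp only [rel_zero, h.lv]
    exact and_congr_right fun hx => by rw [← h.p x hx, h.bij.1.eq_iff]
  · simp only [rel_odd, h.lv, h.bij.1.eq_iff]
  · simp only [rel_even, h.lv]
    exact and_congr_right fun hx => by rw [← h.f σ x hx, h.bij.1.eq_iff]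

theorem iso_iff {S S' : Sys lev par ℕ} : Iso S.rel S'.rel ↔ ∃ g, Mor S S' g :=
  ⟨fun ⟨g, hg⟩ => ⟨g, mor_of_pres fun i x y => (hg i x y).1⟩,
    fun ⟨g, hg⟩ => ⟨Equiv.ofBijective g hg.bij, hg.pres⟩⟩

theorem Mor.thread_map {g : α → β} (h : Mor S S' g) {e : ℕ → α} (he : S.Thread e) :
    S'.Thread fun n => g (e n) := fun n =>
  ⟨by rw [h.lv, (he n).1], by rw [← h.p _ (by rw [(he _).1]; omega), (he n).2]⟩

/-- Transport of a system along a bijection. -/
def map (S : Sys lev par α) (e : α ≃ β) : Sys lev par β where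
  lv y := S.lv (e.symm y)
  f σ y := e (S.f σ (e.symm y))
  p y := e (S.p (e.symm y))
  lev_par := S.lev_par
  lv_f σ x := by simp [S.lv_f]
  f_f σ x h := by simp [S.f_f _ _ h]
  lv_p x n h := by simp [S.lv_p _ _ h]
  p_f σ x h h' := by simp [S.p_f _ _ h h']
  ne n := (S.ne n).elim fun x h => ⟨e x, by simpa using h⟩
  conn x y h := (S.conn _ _ h).imp fun L hL => ⟨hL.1, by
    have : ∀ L : List ℕ, L.foldr (fun σ y => e (S.f σ (e.symm y))) x
        = e (L.foldr S.f (e.symm x)) := fun L => by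
      induction L with
      | nil => simp
      | cons σ L ih => simp [ih]
    rw [this, hL.2, Equiv.apply_symm_apply]⟩
  free x L h1 h2 h3 := S.free (e.symm x) L h1 h2 (by
    have : ∀ L : List ℕ, L.foldr (fun σ y => e (S.f σ (e.symm y))) x
        = e (L.foldr S.f (e.symm x)) := fun L => by
      induction L with
      | nil => simp
      | cons σ L ih => simp [ih]
    rw [this] at h3
    exact e.eq_symm_apply.2 h3)

theorem mor_map (S : Sys lev par α) (e : α ≃ β) : Mor S (S.map e) e :=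
  ⟨fun x => by simp [map], fun σ x _ => by simp [map], fun x _ => by simp [map]⟩

theorem mor_map' (S : Sys lev par α) (e : α ≃ β) : Mor (S.map e) S e.symm :=
  ⟨fun x => by simp [map], fun σ x _ => by simp [map], fun x _ => by simp [map]⟩

theorem exists_of_iso {S : Sys lev par ℕ} {N : Str} (h : Iso S.rel N) :
    ∃ S' : Sys lev par ℕ, N = S'.rel := by
  obtain ⟨g, hg⟩ := h
  refine ⟨S.map g, ?_⟩
  funext i x y
  rw [(S.mor_map' g).pres, hg]
  simp

theorem walk_spec {S : Sys lev par ℕ} {L P : List ℕ} (h : Walk S.rel L P) :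
    At lev (S.lv (P.getD L.length 0)) L ∧ S.app L (P.getD L.length 0) = P.getD 0 0 := by
  induction L generalizing P with
  | nil => simp [At]
  | cons σ L ih =>
    obtain ⟨h1, h2⟩ := walk_cons.1 h
    obtain ⟨h3, h4⟩ := ih h2
    rw [getD_tail, getD_tail] at h4
    rw [getD_tail] at h3
    rw [rel_even, ← zero_add 1, ← h4, lv_app] at h1
    refine ⟨fun τ hτ => ?_, h1.2⟩
    rcases List.mem_cons.1 hτ with rfl | h
    · exact h1.1
    · exact h3 τ h

theorem exists_walk {S : Sys lev par ℕ} {L : List ℕ} {x : ℕ} (h : At lev (S.lv x) L) :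
    ∃ P, Walk S.rel L P ∧ P.getD L.length 0 = x ∧ P.getD 0 0 = S.app L x := by
  induction L with
  | nil => exact ⟨[x], fun j hj => by simp at hj, rfl, rfl⟩
  | cons σ L ih =>
    obtain ⟨P, h1, h2, h3⟩ := ih (h.sub (by simp))
    refine ⟨S.app (σ :: L) x :: P, walk_cons.2 ⟨?_, h1⟩, h2, rfl⟩
    simp only [List.getD_cons_succ, List.getD_cons_zero, h3, rel_even, lv_app, app_cons, and_true]
    exact h σ (by simp)

end Sys

/-- Reduced words, by indices. -/
def RdI (L : List ℕ) : Prop := ∀ j, j + 1 < L.length → L.getD j 0 ≠ L.getD (j + 1) 0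

theorem rdI_iff {L : List ℕ} : RdI L ↔ Rd L := by
  unfold RdI Rd
  rw [List.isChain_iff_getElem]
  refine forall_congr' fun j => ⟨fun h hj => ?_, fun h hj => ?_⟩
  · simpa [List.getD_eq_getElem?_getD, hj, show j < L.length by omega] using h hj
  · simpa [List.getD_eq_getElem?_getD, hj, show j < L.length by omega] using h hj

/-- The axioms for systems. -/
def Ax (lev par : ℕ → ℕ) (M : Str) : Prop :=
  (∀ σ n, lev σ = n + 1 → lev (par σ) = n) ∧
  (∀ x, ∃ n, M (2 * n + 1) x x) ∧
  (∀ n x y, M (2 * n + 1) x y → x = y ∧ ∀ m, M (2 * m + 1) x x → m = n) ∧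
  (∀ σ x, M (2 * lev σ + 1) x x → ∃ y, M (2 * σ + 2) x y) ∧
  (∀ σ x y, M (2 * σ + 2) x y →
    M (2 * lev σ + 1) x x ∧ M (2 * σ + 2) y x ∧ ∀ z, M (2 * σ + 2) x z → z = y) ∧
  (∀ n x, M (2 * (n + 1) + 1) x x → ∃ y, M 0 x y ∧ M (2 * n + 1) y y) ∧
  (∀ x y, M 0 x y → ¬ M (2 * 0 + 1) x x ∧ ∀ z, M 0 x z → z = y) ∧
  (∀ σ x y x' y', M (2 * σ + 2) x y → M 0 x x' → M 0 y y' → M (2 * par σ + 2) x' y') ∧
  (∀ n, ∃ x, M (2 * n + 1) x x) ∧
  (∀ n x y, M (2 * n + 1) x x → M (2 * n + 1) y y →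
    ∃ L P : List ℕ, Walk M L P ∧ P.getD L.length 0 = x ∧ P.getD 0 0 = y) ∧
  (∀ L P : List ℕ, Walk M L P → RdI L → P.getD L.length 0 = P.getD 0 0 → L = [])

theorem d_ax {α : Type} [Primcodable α] {lev par : ℕ → ℕ} (hl : Computable lev)
    (hp : Computable par) {M : α → Str}
    (hM : Dl fun z : α × ℕ × ℕ × ℕ => M z.1 z.2.1 z.2.2.1 z.2.2.2) :
    Dl fun a => Ax lev par (M a) := by
  unfold Ax Walk Ball RdI
  fun_prop

theorem ax_rel {lev par : ℕ → ℕ} (S : Sys lev par ℕ) : Ax lev par S.rel := by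
  refine ⟨S.lev_par, ?_, ?_, ?_, ?_, ?_, ?_, ?_, ?_, ?_, ?_⟩
  · simp
  · simp +contextual
  · simp +contextual
  · simp only [Sys.rel_even, Sys.rel_odd]
    rintro σ x y ⟨h, rfl⟩
    simp [h, S.lv_f, S.f_f _ _ h]
  · simp only [Sys.rel_zero, Sys.rel_odd]
    rintro n x ⟨-, h⟩
    simp [h, S.lv_p _ _ h]
  · simp only [Sys.rel_zero, Sys.rel_odd]
    rintro x y ⟨h, rfl⟩
    simp [h.ne']
  · simp only [Sys.rel_zero, Sys.rel_even]
    rintro σ x y x' y' ⟨h, rfl⟩ ⟨h1, rfl⟩ ⟨-, rfl⟩
    obtain ⟨n, hn⟩ : ∃ n, S.lv x = n + 1 := ⟨S.lv x - 1, by omega⟩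
    exact ⟨by rw [S.lv_p _ _ hn, S.lev_par _ _ (h.trans hn)], (S.p_f _ _ h h1).symm⟩
  · simpa using S.ne
  · simp only [Sys.rel_odd]
    rintro n x y ⟨-, h1⟩ ⟨-, h2⟩
    obtain ⟨L, h3, h4⟩ := S.conn x y (h1.trans h2.symm)
    obtain ⟨P, a1, a2, a3⟩ := Sys.exists_walk (S := S) h3
    exact ⟨L, P, a1, a2, a3.trans h4⟩
  · intro L P h1 h2 h3
    obtain ⟨a1, a2⟩ := Sys.walk_spec h1
    exact S.free _ L a1 (rdI_iff.1 h2) (a2.trans h3.symm)

theorem Ax.exists_sys {lev par : ℕ → ℕ} {M : Str} (h : Ax lev par M) :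
    ∃ S : Sys lev par ℕ, M = S.rel := by
  obtain ⟨h0, h1, h2, h3, h4, h5, h6, h7, h8, h9, h10⟩ := h
  choose lv hlv using h1
  have lvi : ∀ n x, M (2 * n + 1) x x ↔ lv x = n := fun n x =>
    ⟨fun h => (h2 n x x h).2 _ (hlv x), fun h => h ▸ hlv x⟩
  have ef : ∀ σ x, ∃ y, (lev σ = lv x → M (2 * σ + 2) x y) ∧ (lev σ ≠ lv x → y = x) := by
    intro σ x
    by_cases h : lev σ = lv x
    · obtain ⟨y, hy⟩ := h3 σ x ((lvi _ _).2 h.symm)
      exact ⟨y, fun _ => hy, fun h' => absurd h h'⟩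
    · exact ⟨x, fun h' => absurd h' h, fun _ => rfl⟩
  choose f hf hf' using ef
  have fi : ∀ σ x y, M (2 * σ + 2) x y ↔ lev σ = lv x ∧ f σ x = y := fun σ x y =>
    ⟨fun h => by
      have := ((lvi _ _).1 (h4 σ x y h).1).symm
      exact ⟨this, (h4 σ x y h).2.2 _ (hf σ x this)⟩, fun h => h.2 ▸ hf σ x h.1⟩
  have ep : ∀ x, ∃ y, ∀ n, lv x = n + 1 → M 0 x y ∧ lv y = n := by
    intro x
    rcases hx : lv x with _ | n
    · exact ⟨x, by simp⟩
    · obtain ⟨y, a1, a2⟩ := h5 n x ((lvi _ _).2 hx)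
      exact ⟨y, fun m hm => ⟨a1, by rw [(lvi _ _).1 a2]; omega⟩⟩
  choose p hp using ep
  have pi : ∀ x y, M 0 x y ↔ 0 < lv x ∧ p x = y := fun x y =>
    ⟨fun h => by
      have : lv x ≠ 0 := fun e => (h6 x y h).1 ((lvi _ _).2 e)
      exact ⟨by omega, (h6 x y h).2 _ (hp x (lv x - 1) (by omega)).1⟩,
    fun h => h.2 ▸ (hp x (lv x - 1) (by omega)).1⟩
  have lf : ∀ σ x, lv (f σ x) = lv x := fun σ x => by
    by_cases h : lev σ = lv x
    · rw [← ((fi _ _ _).1 (h4 σ x _ (hf σ x h)).2.1).1, h]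
    · rw [hf' σ x h]
  have w1 : ∀ L P : List ℕ, Walk M L P → At lev (lv (P.getD L.length 0)) L ∧
      L.foldr f (P.getD L.length 0) = P.getD 0 0 ∧ lv (P.getD 0 0) = lv (P.getD L.length 0) := by
    intro L
    induction L with
    | nil => simp [At]
    | cons σ L ih =>
      intro P h
      obtain ⟨a1, a2⟩ := walk_cons.1 h
      obtain ⟨a3, a4, a5⟩ := ih _ a2
      simp only [getD_tail, zero_add] at a3 a4 a5
      rw [fi] at a1
      refine ⟨fun τ hτ => ?_, by rw [List.foldr_cons, List.length_cons, a4, a1.2],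
        by rw [← a1.2, lf, a5, List.length_cons]⟩
      rcases List.mem_cons.1 hτ with rfl | h
      · exact a1.1.trans a5
      · exact a3 τ h
  have w2 : ∀ x (L : List ℕ), At lev (lv x) L → ∃ P, Walk M L P ∧ P.getD L.length 0 = x ∧
      P.getD 0 0 = L.foldr f x ∧ lv (L.foldr f x) = lv x := by
    intro x L h
    induction L with
    | nil => exact ⟨[x], fun j hj => by simp at hj, rfl, rfl, rfl⟩
    | cons σ L ih =>
      obtain ⟨P, a1, a2, a3, a4⟩ := ih (h.sub (by simp))
      refine ⟨(σ :: L).foldr f x :: P, walk_cons.2 ⟨?_, a1⟩, a2, rfl, by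
        rw [List.foldr_cons, lf, a4]⟩
      simp only [List.getD_cons_succ, List.getD_cons_zero, a3, fi, a4, List.foldr_cons, and_true]
      exact h σ (by simp)
  refine ⟨⟨lv, f, p, h0, lf, fun σ x h => ((fi _ _ _).1 (h4 σ x _ (hf σ x h)).2.1).2,
    fun x n h => (hp x n h).2, fun σ x h h' => ?_, fun n => (h8 n).imp fun x => (lvi _ _).1,
    fun x y h => ?_, fun x L a1 a2 a3 => ?_⟩, ?_⟩
  · exact ((fi _ _ _).1 (h7 σ x _ _ _ (hf σ x h) ((pi _ _).2 ⟨h', rfl⟩)
      ((pi _ _).2 ⟨by rwa [lf], rfl⟩))).2.symm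
  · obtain ⟨L, P, a1, rfl, rfl⟩ := h9 _ x y (hlv x) ((lvi _ _).2 h.symm)
    exact ⟨L, (w1 L P a1).1, (w1 L P a1).2.1⟩
  · obtain ⟨P, b1, b2, b3, -⟩ := w2 x L a1
    exact h10 L P b1 (rdI_iff.2 a2) (by rw [b2, b3, a3])
  · funext i x y
    rcases sym_cases i with rfl | ⟨n, rfl⟩ | ⟨σ, rfl⟩
    · rw [Sys.rel_zero, pi]
    · rw [Sys.rel_odd]
      exact propext ⟨fun h => by
        obtain rfl := (h2 n x y h).1
        exact ⟨rfl, (lvi _ _).1 h⟩, fun ⟨a, b⟩ => a ▸ (lvi _ _).2 b⟩
    · rw [Sys.rel_even, fi]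

/-- The class of computable structures attached to systems. -/
def Cls (lev par : ℕ → ℕ) : Set Str := {M | IsComp M ∧ ∃ S : Sys lev par ℕ, M = S.rel}

theorem isClass_cls (lev par : ℕ → ℕ) : IsClass (Cls lev par) :=
  ⟨fun _ h => h.1, by
    rintro M ⟨-, S, rfl⟩ N hN h
    exact ⟨hN, Sys.exists_of_iso h⟩⟩

theorem mem_cls {lev par : ℕ → ℕ} {M : Str} : M ∈ Cls lev par ↔ IsComp M ∧ Ax lev par M :=
  and_congr_right fun _ => ⟨fun ⟨S, h⟩ => h ▸ ax_rel S, Ax.exists_sys⟩

theorem dl_cls {lev par : ℕ → ℕ} (hl : Computable lev) (hp : Computable par) :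
    Dl fun e => e ∈ indexSet (Cls lev par) := by
  have : Dl fun e => Tot e ∧ Ax lev par (Hold e) :=
    d_and (by fun_prop) (d_ax hl hp (by fun_prop))
  refine this.of_eq fun e => ?_
  rw [mem_indexSet, mem_cls]
  exact and_congr_right fun h => ⟨fun h' => ⟨⟨e, codes_iff.2 ⟨h, rfl⟩⟩, h'⟩, And.right⟩

/-- The child relation with a witness. -/
def ChW (M N : Str) (u' u : ℕ × ℕ) (n : ℕ) (L P Q : List ℕ) : Prop :=
  M (2 * (n + 1) + 1) u'.1 u'.1 ∧ N (2 * (n + 1) + 1) u'.2 u'.2 ∧ M (2 * n + 1) u.1 u.1 ∧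
    N (2 * n + 1) u.2 u.2 ∧ Walk M L P ∧ Walk N L Q ∧ P.getD L.length 0 = u.1 ∧
    Q.getD L.length 0 = u.2 ∧ M 0 u'.1 (P.getD 0 0) ∧ N 0 u'.2 (Q.getD 0 0)

theorem ch_iff {lev par : ℕ → ℕ} (S S' : Sys lev par ℕ) (u' u : ℕ × ℕ) :
    S.Ch S' u' u ↔ ∃ n L P Q, ChW S.rel S'.rel u' u n L P Q := by
  unfold ChW
  simp only [Sys.rel_odd, Sys.rel_zero, true_and]
  constructor
  · rintro ⟨h1, h2, h3, L, h4, h5, h6⟩
    obtain ⟨P, a1, a2, a3⟩ := Sys.exists_walk h4
    obtain ⟨Q, b1, b2, b3⟩ := Sys.exists_walk (S := S') (x := u.2) (h3 ▸ h4)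
    exact ⟨_, L, P, Q, h1, h2, rfl, h3, a1, b1, a2, b2, ⟨by omega, by rw [a3, h5]⟩,
      ⟨by omega, by rw [b3, h6]⟩⟩
  · rintro ⟨n, L, P, Q, h1, h2, rfl, h3, a1, b1, a2, b2, a3, b3⟩
    obtain ⟨c1, c2⟩ := Sys.walk_spec a1
    obtain ⟨-, c3⟩ := Sys.walk_spec b1
    rw [a2] at c1 c2
    rw [b2] at c3
    exact ⟨h1, h2, h3, L, c1, c2.trans a3.2.symm, c3.trans b3.2.symm⟩

end Pool.Agent.MP_9125cf_lc

end

section

set_option autoImplicit false

namespace Pool.Agent.MP_9125cf_lc

open Classical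

theorem mem_zip_iff {a b : List ℕ} (h : a.length = b.length) {u : ℕ × ℕ} :
    u ∈ a.zip b ↔ ∃ j < a.length, u = (a.getD j 0, b.getD j 0) := by
  rw [List.mem_iff_getElem]
  constructor
  · rintro ⟨j, hj, rfl⟩
    have h1 : j < a.length := by simp at hj; omega
    exact ⟨j, h1, by simp [List.getD_eq_getElem?_getD, h1, h ▸ h1]⟩
  · rintro ⟨j, hj, rfl⟩
    exact ⟨j, by simp; omega, by simp [List.getD_eq_getElem?_getD, hj, h ▸ hj]⟩

theorem atEq_iff {M : Str} {a b : List ℕ} : AtEq M a b ↔ a.length = b.length ∧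
    ∀ u ∈ a.zip b, ∀ v ∈ a.zip b, (u.1 = v.1 ↔ u.2 = v.2) ∧ ∀ i, M i u.1 v.1 ↔ M i u.2 v.2 := by
  refine and_congr_right fun h => ?_
  simp only [mem_zip_iff h]
  constructor
  · rintro H _ ⟨j, hj, rfl⟩ _ ⟨k, hk, rfl⟩
    exact H j k hj hk
  · intro H j k hj hk
    exact H _ ⟨j, hj, rfl⟩ _ ⟨k, hk, rfl⟩

/-- The back-and-forth relations as predicates. -/
def BF4 (M : Str) (α : Ordinal.{0}) (a b : List ℕ) : Prop := (a, b) ∈ BF M α

theorem bf_iff {M : Str} {α : Ordinal.{0}} {a b : List ℕ} : BF4 M α a b ↔ AtEq M a b ∧ ∀ β, β < α →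
    (∀ c : List ℕ, ∃ d : List ℕ, BF4 M β (a ++ c) (b ++ d)) ∧
    (∀ d : List ℕ, ∃ c : List ℕ, BF4 M β (a ++ c) (b ++ d)) := by
  unfold BF4
  rw [BF]
  rfl

theorem BF4.mono {M : Str} {α β : Ordinal.{0}} {a b : List ℕ} (h : BF4 M α a b) (hb : β ≤ α) :
    BF4 M β a b :=
  bf_iff.2 ⟨(bf_iff.1 h).1, fun δ hδ => (bf_iff.1 h).2 δ (hδ.trans_le hb)⟩

theorem BF4.ext {M : Str} {α β : Ordinal.{0}} {a b : List ℕ} (h : BF4 M α a b) (hb : β < α)
    (c : List ℕ) : ∃ a' b', BF4 M β a' b' ∧ a.zip b ⊆ a'.zip b' ∧ c ⊆ a' := by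
  obtain ⟨d, hd⟩ := ((bf_iff.1 h).2 β hb).1 c
  refine ⟨_, _, hd, ?_, by simp⟩
  rw [List.zip_append (bf_iff.1 h).1.1]
  simp

theorem AtEq.partner {M : Str} {a b : List ℕ} (h : AtEq M a b) {x : ℕ} (hx : x ∈ a) :
    ∃ y, (x, y) ∈ a.zip b := by
  obtain ⟨j, hj, rfl⟩ := List.mem_iff_getElem.1 hx
  exact ⟨b.getD j 0, (mem_zip_iff h.1).2 ⟨j, hj, by simp [List.getD_eq_getElem?_getD, hj]⟩⟩

theorem eq_of_zip {a b : List ℕ} (h : a.length = b.length) {g : ℕ → ℕ}
    (H : ∀ u ∈ a.zip b, g u.1 = u.2) : a.map g = b := by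
  refine List.ext_getElem (by simpa using h) fun j h1 h2 => ?_
  have := H _ ((mem_zip_iff h).2 ⟨j, h ▸ h2, rfl⟩)
  simpa [List.getD_eq_getElem?_getD, h2, h ▸ h2] using this

namespace Sys

variable {lev par : ℕ → ℕ} {S : Sys lev par ℕ} {a b : List ℕ}

theorem at_lv (h : AtEq S.rel a b) {x y : ℕ} (hu : (x, y) ∈ a.zip b) : S.lv y = S.lv x :=
  ((S.rel_odd _ _ _).1 ((((atEq_iff.1 h).2 _ hu _ hu).2 (2 * S.lv x + 1)).1 (by simp))).2

theorem at_p (h : AtEq S.rel a b) {x y : ℕ} (hu : (x, y) ∈ a.zip b) (h0 : 0 < S.lv x)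
    (hp : S.p x ∈ a) : (S.p x, S.p y) ∈ a.zip b := by
  obtain ⟨z, hz⟩ := h.partner hp
  have := ((S.rel_zero _ _).1 ((((atEq_iff.1 h).2 _ hu _ hz).2 0).1 (by simp [h0]))).2
  simp only at this
  rwa [this]

theorem at_app (h : AtEq S.rel a b) {x y : ℕ} (hu : (x, y) ∈ a.zip b) {L : List ℕ}
    (hL : At lev (S.lv x) L) (hp : ∀ t, t <:+ L → S.app t x ∈ a) :
    (S.app L x, S.app L y) ∈ a.zip b := by
  induction L with
  | nil => exact hu
  | cons σ L ih =>
    have h1 := ih (hL.sub (by simp)) fun t ht => hp t (ht.trans (List.suffix_cons _ _))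
    obtain ⟨z, hz⟩ := h.partner (hp _ (List.suffix_refl _))
    have := ((S.rel_even _ _ _).1 ((((atEq_iff.1 h).2 _ h1 _ hz).2 (2 * σ + 2)).1
      (by simpa using hL σ (by simp)))).2
    simp only at this
    rwa [app_cons _ _ _ y, this]

theorem bf_deep (β : Ordinal.{0}) : ∀ {a b : List ℕ}, BF4 S.rel β a b → ∀ u ∈ a.zip b,
    Deep (S.Ch S) β u := by
  induction β using WellFoundedLT.induction with
  | ind β ih =>
    rintro a b h ⟨x, y⟩ hu
    refine deep_iff.2 fun δ hδ => ?_
    obtain ⟨x', hx'⟩ := S.ne (S.lv x + 1)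
    obtain ⟨-, w2, w3⟩ := S.wd_spec (x := x) (y := S.p x') (S.lv_p _ _ hx').symm
    obtain ⟨a', b', h1, h2, h3⟩ := h.ext hδ
      (x' :: (S.wd x (S.p x')).tails.map fun t => S.app t x)
    have e := (bf_iff.1 h1).1
    obtain ⟨y', hy'⟩ := e.partner (h3 List.mem_cons_self)
    have a1 := at_app e (h2 hu) w2 fun t ht => h3 (List.mem_cons_of_mem _
      (List.mem_map.2 ⟨t, (List.mem_tails _ _).2 ht, rfl⟩))
    rw [w3] at a1
    have a2 := at_p e hy' (by omega) (List.of_mem_zip a1).1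
    exact ⟨(x', y'), ⟨hx', (at_lv e hy').trans hx', at_lv e (h2 hu), _, w2, w3,
      ((atEq_iff.1 e).2 _ a1 _ a2).1.1 rfl⟩, ih δ hδ h1 _ hy'⟩

theorem ch_bound {S S' : Sys lev par ℕ} (hS : IsComp S.rel) (hS' : IsComp S'.rel)
    {Q : ℕ × ℕ → Prop} (hQ : ComputablePred Q)
    (h : ∀ c : ℕ → ℕ × ℕ, (∀ n, S.Ch S' (c (n + 1)) (c n)) → ¬ Q (c 0)) :
    ∃ γ, γ + 1 < omega1CK ∧ ∀ u, Q u → ¬ Deep (S.Ch S') γ u := by
  have h1 := hS.cp
  have h2 := hS'.cp
  let R : ((ℕ × ℕ × ℕ) × (ℕ × ℕ × ℕ)) × ℕ → Prop := fun z => z.1.1.1 ≠ 0 ∧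
    ((z.1.2.1 = 0 ∧ Q z.1.1.2) ∨ (z.1.2.1 ≠ 0 ∧ ChW S.rel S'.rel z.1.1.2 z.1.2.2
      (Denumerable.ofNat (ℕ × List ℕ × List ℕ × List ℕ) z.2).1
      (Denumerable.ofNat (ℕ × List ℕ × List ℕ × List ℕ) z.2).2.1
      (Denumerable.ofNat (ℕ × List ℕ × List ℕ × List ℕ) z.2).2.2.1
      (Denumerable.ofNat (ℕ × List ℕ × List ℕ × List ℕ) z.2).2.2.2))
  have hR : ComputablePred R := by
    simp only [R]
    unfold ChW Walk
    fun_prop
  have key : ∀ a b, (∃ k, R ((a, b), k)) ↔ a.1 ≠ 0 ∧
      ((b.1 = 0 ∧ Q a.2) ∨ (b.1 ≠ 0 ∧ S.Ch S' a.2 b.2)) := by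
    intro a b
    rw [ch_iff]
    constructor
    · rintro ⟨k, h1, h2⟩
      exact ⟨h1, h2.imp_right fun h => ⟨h.1, _, _, _, _, h.2⟩⟩
    · rintro ⟨h1, h2 | ⟨h2, n, L, P, P', h3⟩⟩
      · exact ⟨0, h1, Or.inl h2⟩
      · exact ⟨Encodable.encode (n, L, P, P'), h1, Or.inr ⟨h2, by
          simpa only [Denumerable.ofNat_encode] using h3⟩⟩
  obtain ⟨β, b1, b2⟩ := deep_bound hR (0, 0, 0) (by
    rintro ⟨f, f0, hf⟩
    simp only [key] at hf
    refine h (fun n => (f (n + 1)).2) (fun n => ?_) ?_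
    · exact (((hf (n + 1)).2.resolve_left fun h => (hf n).1 h.1)).2
    · exact ((hf 0).2.resolve_right fun h => h.1 (by rw [f0])).2)
  obtain ⟨c1, c2⟩ := rk_lt b2
  refine ⟨_, (Order.succ_le_of_lt c1).trans_lt b1, fun u hu hd => c2 (1, u) ((key _ _).2
    ⟨by simp, Or.inl ⟨rfl, hu⟩⟩) ?_⟩
  generalize rk _ _ = δ at hd
  clear hu
  induction δ using WellFoundedLT.induction generalizing u with
  | ind δ ih =>
    refine deep_iff.2 fun ε hε => ?_
    obtain ⟨u', a1, a2⟩ := deep_iff.1 hd ε hε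
    exact ⟨(1, u'), (key _ _).2 ⟨by simp, Or.inr ⟨by simp, a1⟩⟩, ih ε hε u' a2⟩

theorem sameOrbit_of_mor {g : ℕ → ℕ} (hg : Mor S S g) (h : a.map g = b) :
    SameOrbit S.rel a b := ⟨Equiv.ofBijective g hg.bij, hg.pres, h⟩

theorem omega_pos : 0 < omega1CK := by
  obtain ⟨β, h, -⟩ := deep_bound (γ := ℕ) (R := fun _ => False) (cp_const _) 0 (by simp)
  exact zero_le.trans_lt h

theorem orbit_of_bf (hS : IsComp S.rel) (h : BF4 S.rel omega1CK a b) : SameOrbit S.rel a b := by
  have e0 := (bf_iff.1 h).1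
  by_cases hne : a.zip b = []
  · exact sameOrbit_of_mor (g := id) ⟨fun _ => rfl, fun _ _ _ => rfl, fun _ _ => rfl⟩
      (eq_of_zip e0.1 (by simp [hne]))
  obtain ⟨⟨x, y⟩, hu, hm⟩ := (a.zip b).toFinset.exists_max_image (fun u => S.lv u.1)
    (by simpa using hne)
  simp only [List.mem_toFinset] at hu hm
  have : ∃ c : ℕ → ℕ × ℕ, (∀ n, S.Ch S (c (n + 1)) (c n)) ∧ c 0 = (x, y) := by
    by_contra hc
    push Not at hc
    obtain ⟨γ, h1, h2⟩ := ch_bound hS hS (Q := fun u => u = (x, y)) (by fun_prop) hc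
    exact h2 _ rfl ((bf_deep _ h _ hu).mono ((Order.le_succ γ).trans h1.le))
  obtain ⟨c, c1, c2⟩ := this
  obtain ⟨g, hg, g1⟩ := mor_of_chain S S c c1
  have g2 : g x = y := by simpa [c2] using g1 0
  refine sameOrbit_of_mor hg (eq_of_zip e0.1 ?_)
  rintro ⟨x', y'⟩ hv
  obtain ⟨m, hm'⟩ : ∃ m, S.lv x = S.lv x' + m := ⟨_, (Nat.add_sub_cancel' (hm _ hv)).symm⟩
  have l1 := S.lv_iter m _ _ hm'
  obtain ⟨-, w2, w3⟩ := S.wd_spec (x := S.p^[m] x) (y := x') l1
  obtain ⟨a', b', h1, h2, h3⟩ := h.ext omega_pos (((List.range (m + 1)).map fun k => S.p^[k] x) ++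
    (S.wd (S.p^[m] x) x').tails.map fun t => S.app t (S.p^[m] x))
  have e := (bf_iff.1 h1).1
  have a0 : ∀ k ≤ m, (S.p^[k] x, g (S.p^[k] x)) ∈ a'.zip b' := by
    intro k
    induction k with
    | zero => intro _; simpa [g2] using h2 hu
    | succ k ih =>
      intro hk
      have l2 : 0 < S.lv (S.p^[k] x) := by
        rw [S.lv_iter k (S.lv x - k) x (by omega)]; omega
      rw [Function.iterate_succ_apply', hg.p _ l2]
      refine at_p e (ih (by omega)) l2 (h3 (List.mem_append_left _ (List.mem_map.2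
        ⟨k + 1, by simp; omega, by rw [Function.iterate_succ_apply']⟩)))
  have a1 := at_app e (a0 m le_rfl) w2 fun t ht => h3 (List.mem_append_right _
      (List.mem_map.2 ⟨t, (List.mem_tails _ _).2 ht, rfl⟩))
  rw [← hg.app w2, w3] at a1
  exact ((atEq_iff.1 e).2 _ a1 _ (h2 hv)).1.1 rfl

theorem rigid_bound (hS : IsComp S.rel) (ht : ¬ ∃ e, S.Thread e) :
    ∃ γ, γ + 1 < omega1CK ∧ ∀ x y, x ≠ y → ¬ Deep (S.Ch S) γ (x, y) := by
  obtain ⟨γ, h1, h2⟩ := ch_bound hS hS (Q := fun u => u.1 ≠ u.2) (by fun_prop) (by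
    intro c hc hne
    obtain ⟨g, hg, g1⟩ := mor_of_chain S S c hc
    exact ht (hg.thread (x := (c 0).1) (by rw [g1]; exact hne.symm)))
  exact ⟨γ, h1, fun x y h => h2 (x, y) h⟩

end Sys

theorem scottRank_le {M : Str} {γ : Ordinal.{0}} (h : ∀ a b, BF4 M γ a b → SameOrbit M a b) :
    scottRank M ≤ γ + 1 :=
  csInf_le' fun a => (csInf_le' (s := {β | ∀ b, BF4 M β a b → SameOrbit M a b}) (h a)).trans_lt
    (Order.lt_succ γ)

theorem lt_scottRank {M : Str} {γ α : Ordinal.{0}} (h : ∀ a b, BF4 M γ a b → SameOrbit M a b)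
    {a b : List ℕ} (h1 : BF4 M α a b) (h2 : ¬ SameOrbit M a b) : α < scottRank M := by
  have e1 : tupleRank M a < scottRank M := csInf_mem (s := {α | ∀ a, tupleRank M a < α})
    ⟨γ + 1, fun a => (csInf_le' (s := {β | ∀ b, BF4 M β a b → SameOrbit M a b}) (h a)).trans_lt
      (Order.lt_succ γ)⟩ a
  have e2 := csInf_mem (s := {β | ∀ b, BF4 M β a b → SameOrbit M a b}) ⟨γ, h a⟩
  refine lt_trans (not_le.1 fun h3 => h2 (e2 b (h1.mono h3))) e1

theorem Sys.low_rank {lev par : ℕ → ℕ} {S : Sys lev par ℕ} (hS : IsComp S.rel)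
    (ht : ¬ ∃ e, S.Thread e) : scottRank S.rel < omega1CK := by
  obtain ⟨γ, h1, h2⟩ := Sys.rigid_bound hS ht
  refine (scottRank_le fun a b h => ?_).trans_lt h1
  exact Sys.sameOrbit_of_mor (g := id) ⟨fun _ => rfl, fun _ _ _ => rfl, fun _ _ => rfl⟩
    (eq_of_zip (bf_iff.1 h).1.1 fun u hu => by_contra fun hne =>
      h2 u.1 u.2 hne (Sys.bf_deep _ h _ hu))

end Pool.Agent.MP_9125cf_lc

end

section

set_option autoImplicit false

namespace Pool.Agent.MP_9125cf_lc

open Classical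

/-- A finite branch of letters. -/
def Br (lev par : ℕ → ℕ) (m : ℕ) (s : ℕ → ℕ) : Prop :=
  (∀ n ≤ m, lev (s n) = n) ∧ ∀ n < m, par (s (n + 1)) = s n

/-- Finite branches with many extensions. -/
def Good (lev par : ℕ → ℕ) (β : Ordinal.{0}) (m : ℕ) (s : ℕ → ℕ) : Prop :=
  Br lev par m s ∧ ∀ δ, δ < β → ∀ M, ∃ m' s', M ≤ m' ∧ m ≤ m' ∧ (∀ n ≤ m, s' n = s n) ∧
    Good lev par δ m' s'
termination_by β

theorem good_iff {lev par : ℕ → ℕ} {β : Ordinal.{0}} {m : ℕ} {s : ℕ → ℕ} : Good lev par β m s ↔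
    Br lev par m s ∧ ∀ δ, δ < β → ∀ M, ∃ m' s', M ≤ m' ∧ m ≤ m' ∧ (∀ n ≤ m, s' n = s n) ∧
      Good lev par δ m' s' := by rw [Good]

/-- Letters on an infinite branch. -/
def Ill (lev par : ℕ → ℕ) (σ : ℕ) : Prop :=
  ∃ t : ℕ → ℕ, t 0 = σ ∧ ∀ k, lev (t k) = lev σ + k ∧ par (t (k + 1)) = t k

theorem Ill.lift {lev par : ℕ → ℕ} {σ : ℕ} (h : Ill lev par σ) :
    ∃ τ, Ill lev par τ ∧ lev τ = lev σ + 1 ∧ par τ = σ := by
  obtain ⟨t, h0, ht⟩ := h
  exact ⟨t 1, ⟨fun k => t (k + 1), rfl, fun k => ⟨by rw [(ht _).1, (ht _).1]; omega,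
    (ht _).2⟩⟩, (ht 1).1, (ht 0).2.trans h0⟩

theorem ill_of_step {lev par : ℕ → ℕ} {P : ℕ → Prop}
    (h : ∀ σ, P σ → ∃ τ, P τ ∧ lev τ = lev σ + 1 ∧ par τ = σ) {σ : ℕ} (hσ : P σ) :
    Ill lev par σ := by
  have h' : ∀ σ : {σ // P σ}, ∃ τ : {σ // P σ}, lev τ.1 = lev σ.1 + 1 ∧ par τ.1 = σ.1 :=
    fun σ => (h σ.1 σ.2).elim fun τ h => ⟨⟨τ, h.1⟩, h.2⟩
  choose F hF using h'
  refine ⟨fun k => (F^[k] ⟨σ, hσ⟩).1, rfl, fun k => ⟨?_, ?_⟩⟩
  · induction k with
    | zero => rfl
    | succ k ih => simp only [Function.iterate_succ_apply', (hF _).1] at ih ⊢; omega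
  · simp only [Function.iterate_succ_apply', (hF _).2]

namespace Sys

variable {lev par : ℕ → ℕ} {α : Type} {S : Sys lev par α} {e : ℕ → α}

theorem Thread.rep (he : S.Thread e) (z : α) : ∃ n L, At lev n L ∧ S.app L (e n) = z := by
  obtain ⟨-, h2, h3⟩ := S.wd_spec (x := e (S.lv z)) (y := z) (he _).1
  exact ⟨_, _, by rwa [(he _).1] at h2, h3⟩

theorem Thread.ill (he : S.Thread e) {g : α → α} (hg : Mor S S g) {n σ : ℕ}
    (h : σ ∈ S.wd (e n) (g (e n))) : Ill lev par σ := by
  refine ill_of_step (P := fun σ => ∃ n, σ ∈ S.wd (e n) (g (e n))) ?_ ⟨n, h⟩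
  rintro σ ⟨n, h⟩
  obtain ⟨-, a2, a3⟩ := hg.wd_spec (e (n + 1))
  have l := (he (n + 1)).1
  have l' := (hg.wd_spec (e n)).2.1 σ h
  have a4 : At lev (S.lv (e n)) ((S.wd (e (n + 1)) (g (e (n + 1)))).map par) := by
    rw [(he n).1]; rw [l] at a2; exact S.at_par a2
  have : g (e n) = S.app ((S.wd (e (n + 1)) (g (e (n + 1)))).map par) (e n) := by
    conv_lhs => rw [← (he n).2, hg.p _ (by omega), ← a3, S.p_app a2 (by omega), (he n).2]
  rw [this, S.wd_app a4] at h
  obtain ⟨τ, b1, b2⟩ := List.mem_map.1 (mem_red h)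
  exact ⟨τ, ⟨_, b1⟩, by rw [a2 τ b1, l, l', (he n).1], b2⟩

theorem thread_of_ill (S : Sys lev par α) {b : ℕ → α} {H : ℕ → List ℕ}
    (hb : ∀ n, S.lv (b n) = n) (hH : ∀ n, At lev n (H n)) (hi : ∀ n, ∀ σ ∈ H n, Ill lev par σ)
    (hp : ∀ n, S.p (b (n + 1)) = S.app (H n) (b n)) : ∃ e, S.Thread e := by
  have lift : ∀ n (L : List ℕ), At lev n L → (∀ σ ∈ L, Ill lev par σ) →
      ∃ L', (At lev (n + 1) L' ∧ ∀ σ ∈ L', Ill lev par σ) ∧ L'.map par = L := by
    intro n L
    induction L with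
    | nil => exact fun _ _ => ⟨[], ⟨by simp [At], by simp⟩, rfl⟩
    | cons σ L ih =>
      intro h1 h2
      obtain ⟨L', ⟨a1, a2⟩, a3⟩ := ih (h1.sub (by simp)) fun τ h => h2 τ (by simp [h])
      obtain ⟨τ, c1, c2, c3⟩ := (h2 σ (by simp)).lift
      refine ⟨τ :: L', ⟨fun ρ h => ?_, fun ρ h => ?_⟩, by simp [a3, c3]⟩
      · rcases List.mem_cons.1 h with rfl | h
        · rw [c2, h1 σ (by simp)]
        · exact a1 ρ h
      · rcases List.mem_cons.1 h with rfl | h
        · exact c1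
        · exact a2 ρ h
  have step : ∀ n (L : {L : List ℕ // At lev n L ∧ ∀ σ ∈ L, Ill lev par σ}),
      ∃ L' : {L : List ℕ // At lev (n + 1) L ∧ ∀ σ ∈ L, Ill lev par σ},
        L'.1.map par = L.1 ++ (H n).reverse := by
    intro n L
    obtain ⟨L', h1, h2⟩ := lift n (L.1 ++ (H n).reverse) (L.2.1.append (hH n).reverse)
      fun σ h => (List.mem_append.1 h).elim (L.2.2 σ) fun h => hi n σ (List.mem_reverse.1 h)
    exact ⟨⟨L', h1⟩, h2⟩
  choose F hF using step
  let W : ∀ n, {L : List ℕ // At lev n L ∧ ∀ σ ∈ L, Ill lev par σ} := fun n =>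
    Nat.rec ⟨[], by simp [At], by simp⟩ F n
  refine ⟨fun n => S.app (W n).1 (b n), fun n => ⟨by simp [hb], ?_⟩⟩
  have : (W (n + 1)).1.map par = (W n).1 ++ (H n).reverse := hF n (W n)
  simp only []
  rw [S.p_app (by rw [hb]; exact (W _).2.1) (by rw [hb]; omega), this, hp, app_append,
    S.app_rev (by rw [hb]; exact hH n)]

/-- The partial automorphism given by a finite branch. -/
noncomputable def pa (S : Sys lev par α) (e : ℕ → α) (s : ℕ → ℕ) (z : α) : α :=
  tau S S (e (S.lv z)) (S.f (s (S.lv z)) (e (S.lv z))) z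

variable {m : ℕ} {s : ℕ → ℕ}

theorem pa_app (he : S.Thread e) {n : ℕ} {L : List ℕ} (hL : At lev n L) :
    S.pa e s (S.app L (e n)) = S.app L (S.f (s n) (e n)) := by
  rw [pa, lv_app, (he n).1, tau_app S S (S.lv_f _ _) (by rwa [(he n).1])]

theorem lv_pa (he : S.Thread e) (z : α) : S.lv (S.pa e s z) = S.lv z := by
  rw [pa, tau, lv_app, S.lv_f, (he _).1]

theorem pa_pa (he : S.Thread e) (hs : Br lev par m s) {z : α} (hz : S.lv z ≤ m) :
    S.pa e s (S.pa e s z) = z := by
  obtain ⟨n, L, h1, rfl⟩ := he.rep z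
  rw [lv_app, (he n).1] at hz
  have := pa_app (s := s) he (h1.append (L' := [s n]) (by simpa [At] using hs.1 n hz))
  rw [app_append, app_append, app_cons, app_nil, app_cons, app_nil,
    S.f_f _ _ (by rw [hs.1 n hz, (he n).1])] at this
  rw [pa_app he h1, this]

theorem pa_inj (he : S.Thread e) (hs : Br lev par m s) {x y : α} (hx : S.lv x ≤ m)
    (hy : S.lv y ≤ m) : S.pa e s x = S.pa e s y ↔ x = y :=
  ⟨fun h => by rw [← pa_pa he hs hx, h, pa_pa he hs hy], fun h => by rw [h]⟩

theorem pa_f (he : S.Thread e) {σ : ℕ} {z : α} (hz : lev σ = S.lv z) :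
    S.pa e s (S.f σ z) = S.f σ (S.pa e s z) := by
  obtain ⟨n, L, h1, rfl⟩ := he.rep z
  rw [lv_app, (he n).1] at hz
  rw [← app_cons, pa_app he h1, pa_app he (L := σ :: L)
    (At.append (L := [σ]) (by simpa [At] using hz) h1), app_cons]

theorem pa_p (he : S.Thread e) (hs : Br lev par m s) {z : α} (hz : S.lv z ≤ m)
    (h0 : 0 < S.lv z) : S.pa e s (S.p z) = S.p (S.pa e s z) := by
  obtain ⟨n, L, h1, rfl⟩ := he.rep z
  rw [lv_app, (he n).1] at hz h0
  obtain ⟨n, rfl⟩ : ∃ k, n = k + 1 := ⟨n - 1, by omega⟩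
  have l := (he (n + 1)).1
  rw [pa_app he h1, S.p_app (by rwa [l]) (by omega), (he n).2, pa_app he (S.at_par h1),
    S.p_app (by rwa [S.lv_f, l]) (by rw [S.lv_f]; omega),
    S.p_f _ _ (by rw [hs.1 _ hz, l]) (by omega), hs.2 n hz, (he n).2]

theorem pa_rel (he : S.Thread e) (hs : Br lev par m s) {x y : α} (hx : S.lv x ≤ m)
    (hy : S.lv y ≤ m) (i : ℕ) : S.rel i x y ↔ S.rel i (S.pa e s x) (S.pa e s y) := by
  rcases sym_cases i with rfl | ⟨n, rfl⟩ | ⟨σ, rfl⟩
  · simp only [rel_zero, lv_pa he]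
    refine and_congr_right fun h0 => ?_
    rw [← pa_p he hs hx h0, pa_inj he hs _ hy]
    rw [S.lv_p x (S.lv x - 1) (by omega)]
    omega
  · simp only [rel_odd, lv_pa he, pa_inj he hs hx hy]
  · simp only [rel_even, lv_pa he]
    refine and_congr_right fun h0 => ?_
    rw [← pa_f he h0, pa_inj he hs (by rwa [S.lv_f]) hy]

theorem bf_good {S : Sys lev par ℕ} {e : ℕ → ℕ} (he : S.Thread e) (β : Ordinal.{0}) :
    ∀ m s, Good lev par β m s → ∀ a : List ℕ, (∀ x ∈ a, S.lv x ≤ m) →
      BF4 S.rel β a (a.map (S.pa e s)) := by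
  induction β using WellFoundedLT.induction with
  | ind β ih =>
    intro m s h a ha
    obtain ⟨h1, h2⟩ := good_iff.1 h
    refine bf_iff.2 ⟨atEq_iff.2 ⟨by simp, ?_⟩, fun δ hδ => ?_⟩
    · have : ∀ u ∈ a.zip (a.map (S.pa e s)), S.lv u.1 ≤ m ∧ u.2 = S.pa e s u.1 := by
        intro u hu
        rw [List.zip_map_right, List.zip_eq_zipWith, List.zipWith_self] at hu
        simp only [List.map_map, List.mem_map] at hu
        obtain ⟨x, hx, rfl⟩ := hu
        exact ⟨ha x hx, rfl⟩
      intro u hu v hv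
      obtain ⟨u1, u2⟩ := this u hu
      obtain ⟨v1, v2⟩ := this v hv
      rw [u2, v2]
      exact ⟨(pa_inj he h1 u1 v1).symm, pa_rel he h1 u1 v1⟩
    · have key : ∀ c : List ℕ, ∃ m' s', Br lev par m' s' ∧ (∀ x ∈ c, S.lv x ≤ m') ∧
          ∀ c' : List ℕ, (∀ x ∈ c', S.lv x ≤ m') →
            BF4 S.rel δ (a ++ c') (a.map (S.pa e s) ++ c'.map (S.pa e s')) := by
        intro c
        obtain ⟨m', s', b1, b2, b3, b4⟩ := h2 δ hδ (c.map S.lv).sum
        refine ⟨m', s', (good_iff.1 b4).1, fun x hx =>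
          (List.single_le_sum (by simp) _ (List.mem_map_of_mem hx)).trans b1, fun c' hc => ?_⟩
        have e1 : a.map (S.pa e s) = a.map (S.pa e s') := List.map_congr_left fun x hx => by
          rw [pa, pa, b3 _ (ha x hx)]
        rw [e1, ← List.map_append]
        exact ih δ hδ m' s' b4 _ fun x hx =>
          (List.mem_append.1 hx).elim (fun h => (ha x h).trans b2) (hc x)
      refine ⟨fun c => ?_, fun d => ?_⟩
      · obtain ⟨m', s', -, b2, b3⟩ := key c
        exact ⟨_, b3 c b2⟩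
      · obtain ⟨m', s', b1, b2, b3⟩ := key d
        have := b3 (d.map (S.pa e s')) (by
          intro x hx
          obtain ⟨y, hy, rfl⟩ := List.mem_map.1 hx
          rw [lv_pa he]
          exact b2 y hy)
        rw [List.map_map, List.map_congr_left (f := S.pa e s' ∘ S.pa e s') (g := id)
          (fun x hx => pa_pa he b1 (b2 x hx)),
          List.map_id] at this
        exact ⟨_, this⟩

theorem high_rank {S : Sys lev par ℕ} (hS : IsComp S.rel) {e : ℕ → ℕ} (he : S.Thread e)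
    (H : ∀ β, CompOrd β → ∃ m s, Good lev par β m s ∧ ¬ Ill lev par (s m)) :
    HighRank S.rel := by
  have h1 := scottRank_le fun a b => orbit_of_bf (a := a) (b := b) hS
  have h2 : omega1CK ≤ scottRank S.rel := by
    refine le_of_forall_lt fun β hβ => ?_
    obtain ⟨m, s, a1, a2⟩ := H β (compOrd_iff.2 hβ)
    have l := (good_iff.1 a1).1.1 m le_rfl
    refine lt_scottRank (fun a b => orbit_of_bf (a := a) (b := b) hS)
      (bf_good he β m s a1 [e m] (by simp [(he m).1])) ?_
    rintro ⟨g, g1, g2⟩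
    have hg : Mor S S g := mor_of_pres fun i x y => (g1 i x y).1
    have g3 : g (e m) = S.app [s m] (e m) := by
      have := pa_app (s := s) he (n := m) (L := []) (by simp [At])
      rw [app_nil, app_nil] at this
      simpa [this] using g2
    refine a2 (he.ill hg (n := m) ?_)
    rw [g3, S.wd_app (by simpa [At, (he m).1] using l)]
    simp [red, act]
  rcases h2.eq_or_lt with h | h
  · exact Or.inl h.symm
  · exact Or.inr (le_antisymm h1 (Order.succ_le_of_lt h))

end Sys

end Pool.Agent.MP_9125cf_lc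

end

section

set_option autoImplicit false

namespace Pool.Agent.MP_9125cf_lc

open Classical

namespace Sys

variable {lev par : ℕ → ℕ} {α β : Type} {S : Sys lev par α} {S' : Sys lev par β}

theorem deep_shift {δ : Ordinal.{0}} {x : α} {y : β} (h : Deep (S.Ch S') δ (x, y)) {L : List ℕ}
    (hL : At lev (S.lv x) L) : Deep (S.Ch S') δ (S.app L x, S'.app L y) := by
  refine deep_iff.2 fun ε hε => ?_
  obtain ⟨u, ⟨a1, a2, a3, L', a4, a5, a6⟩, hu⟩ := deep_iff.1 h ε hε
  refine ⟨u, ⟨by simpa using a1, by simpa using a2, by simpa using a3, L' ++ L.reverse,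
    by simpa using a4.append hL.reverse, ?_, ?_⟩, hu⟩
  · simp only [app_append, S.app_rev hL]
    exact a5
  · simp only [app_append, S'.app_rev (x := y) (a3 ▸ hL)]
    exact a6

theorem Ch.shift {u' u : α × β} (h : S.Ch S' u' u) {L : List ℕ} (hL : At lev (S.lv u'.1) L) :
    S.Ch S' (S.app L u'.1, S'.app L u'.2) u := by
  obtain ⟨a1, a2, a3, L', a4, a5, a6⟩ := h
  refine ⟨by simpa using a1, by simpa using a2, a3, L.map par ++ L',
    (S.at_par (a1 ▸ hL)).append a4, ?_, ?_⟩
  · simp only [app_append, a5, S.p_app hL (by omega)]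
  · simp only [app_append, a6, S'.p_app (x := u'.2) (by rw [a2, ← a1]; exact hL) (by omega)]

theorem deep_two (δ : Ordinal.{0}) : ∀ {x : α} {y y' : β}, Deep (S.Ch S') δ (x, y) →
    Deep (S.Ch S') δ (x, y') → Deep (S'.Ch S') δ (y, y') := by
  induction δ using WellFoundedLT.induction with
  | ind δ ih =>
    intro x y y' h h'
    refine deep_iff.2 fun ε hε => ?_
    obtain ⟨u, c1, d1⟩ := deep_iff.1 h ε hε
    obtain ⟨v, c2, d2⟩ := deep_iff.1 h' ε hε
    obtain ⟨-, w2, w3⟩ := S.wd_spec (x := v.1) (y := u.1) (c2.1.trans c1.1.symm)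
    have c3 := c2.shift w2
    have d3 := deep_shift (x := v.1) (y := v.2) d2 w2
    rw [w3] at c3 d3
    refine ⟨_, ?_, @ih ε hε u.1 u.2 _ d1 d3⟩
    obtain ⟨a1, a2, a3, L, a4, a5, a6⟩ := c1
    obtain ⟨b1, b2, b3, L', b4, b5, b6⟩ := c3
    simp only at *
    refine ⟨by rw [a2, a3], by rw [b2, a3], by rw [b3, a3], L, a3 ▸ a4, a6, ?_⟩
    have e : red L = red L' := by rw [← S.wd_app a4, ← S.wd_app b4, a5, b5]
    simp only
    rw [← b6, ← S'.app_red (b3 ▸ a4), e, S'.app_red (b3 ▸ b4)]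

theorem ch_par {x : α} {y : β} {n : ℕ} (hx : S.lv x = n + 1) (hy : S'.lv y = n + 1) :
    S.Ch S' (x, y) (S.p x, S'.p y) := by
  have h1 := S.lv_p _ _ hx
  have h2 := S'.lv_p _ _ hy
  exact ⟨by simp [hx, h1], by simp [hy, h1], by simp [h1, h2], [], by simp [At], rfl, rfl⟩

theorem deep_par {δ : Ordinal.{0}} {x : α} {y : β} {n : ℕ} (hx : S.lv x = n + 1)
    (hy : S'.lv y = n + 1) (h : Deep (S.Ch S') δ (x, y)) : Deep (S.Ch S') δ (S.p x, S'.p y) :=
  deep_iff.2 fun _ hε => ⟨_, ch_par hx hy, h.mono hε.le⟩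

theorem mor_of_deep {γ : Ordinal.{0}} (hγ : ∀ y y', y ≠ y' → ¬ Deep (S'.Ch S') γ (y, y'))
    (h : ∀ m, ∃ u : α × β, m ≤ S.lv u.1 ∧ S'.lv u.2 = S.lv u.1 ∧ Deep (S.Ch S') γ u) :
    ∃ g, Mor S S' g := by
  have h1 : ∀ k m (u : α × β), S.lv u.1 = m + k → S'.lv u.2 = m + k → Deep (S.Ch S') γ u →
      ∃ u : α × β, S.lv u.1 = m ∧ S'.lv u.2 = m ∧ Deep (S.Ch S') γ u := by
    intro k
    induction k with
    | zero => exact fun m u a b c => ⟨u, a, b, c⟩
    | succ k ih =>
      exact fun m u a b c => ih m (S.p u.1, S'.p u.2) (S.lv_p _ _ a) (S'.lv_p _ _ b)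
        (deep_par a b c)
  have h2 : ∀ m, ∃ u : α × β, S.lv u.1 = m ∧ S'.lv u.2 = m ∧ Deep (S.Ch S') γ u := fun m => by
    obtain ⟨u, a, b, c⟩ := h m
    exact h1 (S.lv u.1 - m) m u (by omega) (by omega) c
  choose c c1 c2 c3 using h2
  refine (mor_of_chain S S' c fun n => ?_).imp fun _ h => h.1
  obtain ⟨-, w2, w3⟩ := S.wd_spec (x := (c n).1) (y := S.p (c (n + 1)).1)
    (by rw [c1, S.lv_p _ _ (c1 _)])
  have d1 := deep_shift (x := (c n).1) (y := (c n).2) (c3 n) w2
  rw [w3] at d1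
  exact ⟨by rw [c1, c1], by rw [c2, c1], by rw [c2, c1], _, w2, w3, by_contra fun hne =>
    hγ _ _ hne (deep_two γ d1 (deep_par (c1 _) (c2 _) (c3 (n + 1))))⟩

theorem Mor.ch {g : α → β} (hg : Mor S S' g) {x x' : α} (h : S.lv x' = S.lv x + 1) :
    S.Ch S' (x', g x') (x, g x) := by
  obtain ⟨-, w2, w3⟩ := S.wd_spec (x := x) (y := S.p x') (S.lv_p _ _ h).symm
  exact ⟨h, (hg.lv _).trans h, hg.lv _, _, w2, w3, by
    simp only [← hg.app w2, w3, hg.p x' (by omega)]⟩

end Sys

theorem dl_class {lev par : ℕ → ℕ} (hl : Computable lev) (hp : Computable par)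
    {B : Sys lev par ℕ} (hB : IsComp B.rel) (ht : ¬ ∃ e, B.Thread e) :
    Dl fun e => e ∈ indexSet (Cls lev par) ∧ Iso (Hold e) B.rel := by
  have hK := dl_cls hl hp
  have hB' : Dl fun q : ℕ × ℕ × ℕ => B.rel q.1 q.2.1 q.2.2 := .of_cp hB.cp
  refine ⟨s_and hK.1 (sg_iso (by fun_prop) (by fun_prop)), ?_⟩
  obtain ⟨γ, h1, h2⟩ := Sys.rigid_bound hB ht
  obtain ⟨T, r, wo, hT, hr, rfl⟩ := compOrd_iff.2 ((Order.lt_succ γ).trans h1)
  have hT' : Sg fun x => x ∈ T := .of_cp hT
  have hr' : Sg fun q : ℕ × ℕ => r q.1 q.2 := .of_cp hr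
  have main : Sg fun z : ℕ × ℕ => ∃ ρ : ℕ × ℕ → ℕ, ∀ u' u : ℕ × ℕ, ∀ n, z.2 ≤ n →
      Hold z.1 (2 * n + 1) u.1 u.1 → (∃ n L P Q, ChW (Hold z.1) B.rel u' u n L P Q) →
      ρ u ∈ T ∧ ρ u' ∈ T ∧ r (ρ u') (ρ u) := by
    refine sg_fun2 (Q := fun (z : ℕ × ℕ) (u' : ℕ × ℕ) (a' : ℕ) u a => ∀ n, z.2 ≤ n →
      Hold z.1 (2 * n + 1) u.1 u.1 → (∃ n L P Q, ChW (Hold z.1) B.rel u' u n L P Q) →
      a ∈ T ∧ a' ∈ T ∧ r a' a) ?_
    have e1 : ∀ {δ : Type} [Primcodable δ] {f : δ → ℕ}, Computable f → Sg fun x => f x ∈ T :=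
      fun h => hT'.comp h
    refine s_all (s_imp (by fun_prop) (s_imp (by fun_prop) (s_imp ?_
      (s_and (e1 (by fun_prop)) (s_and (e1 (by fun_prop)) (by fun_prop))))))
    unfold ChW Walk Ball
    fun_prop
  refine (s_or hK.2 main.ex).of_eq fun e => ?_
  by_cases he : e ∈ indexSet (Cls lev par)
  swap
  · simp [he]
  simp only [he, not_true, false_or, true_and]
  obtain ⟨-, -, S, hS⟩ := mem_indexSet.1 he
  simp only [hS, ← ch_iff, Sys.rel_odd, true_and, Sys.iso_iff]
  constructor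
  · rintro ⟨m, ρ, H⟩ ⟨g, hg⟩
    choose x hx using S.ne
    have := fun k => H (x (m + k + 1), g (x (m + k + 1))) (x (m + k), g (x (m + k))) (m + k)
      (by omega) (hx _) (hg.ch (by rw [hx, hx]))
    exact (wellFounded_iff_isEmpty_descending_chain.1 wo.wf).false
      ⟨fun k => ⟨_, (this k).1⟩, fun k => (this k).2.2⟩
  · intro hn
    have := mt (Sys.mor_of_deep (S := S) h2) hn
    push Not at this
    obtain ⟨m, hm⟩ := this
    have ex : ∀ u : ℕ × ℕ, ∃ a : ℕ, rk (S.Ch B) u < Ordinal.type (fun x y : T => r x y) →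
        ∃ h : a ∈ T, Ordinal.typein (fun x y : T => r x y) ⟨a, h⟩ = rk (S.Ch B) u := by
      intro u
      by_cases h : rk (S.Ch B) u < Ordinal.type (fun x y : T => r x y)
      · obtain ⟨a, ha⟩ := Ordinal.typein_surj _ h
        exact ⟨a, fun _ => ⟨a.2, ha⟩⟩
      · exact ⟨0, fun h' => absurd h' h⟩
    choose ρ hρ using ex
    refine ⟨m, ρ, fun u' u n a1 a2 a3 => ?_⟩
    obtain ⟨b1, b2⟩ := rk_lt (hm u (by omega) a3.2.2.1)
    have b3 := (rk_lt (b2 u' a3)).1
    obtain ⟨c1, c2⟩ := hρ u b1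
    obtain ⟨c3, c4⟩ := hρ u' (b3.trans b1)
    rw [← c2, ← c4, Ordinal.typein_lt_typein] at b3
    exact ⟨c1, c3, b3⟩

end Pool.Agent.MP_9125cf_lc

end

section

set_option autoImplicit false

namespace Pool.Agent.MP_9125cf_lc

open Classical Nat.Partrec Denumerable

/-- The `i`-th tree. -/
def Rt (i : ℕ) (s : List ℕ) : Prop := Ball (s.length + 1) fun n =>
  Code.evaln n.unpair.2 (ofNat Code i) (Nat.pair i (Encodable.encode (s.take n.unpair.1))) ≠ some 0

/-- The `i`-th tree has an infinite path. -/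
def U (i : ℕ) : Prop := ∃ f : ℕ → ℕ, ∀ n, Rt i ((List.range n).map f)

@[fun_prop] theorem p_rt {α : Type} [Primcodable α] {i : α → ℕ} {s : α → List ℕ}
    (hi : Computable i) (hs : Computable s) : ComputablePred fun a => Rt (i a) (s a) := by
  unfold Rt
  fun_prop

theorem Rt.take {i : ℕ} {s : List ℕ} (h : Rt i s) (k : ℕ) : Rt i (s.take k) := by
  intro n hn
  simp only [List.length_take] at hn
  have := Nat.unpair_left_le n
  rw [List.take_take, min_eq_left (by omega)]
  exact h n (by omega)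

theorem rt_nil (i : ℕ) : Rt i [] := by
  intro n hn
  obtain rfl : n = 0 := by simpa using hn
  simp [Nat.unpair, Code.evaln]

theorem take_range (f : ℕ → ℕ) (k n : ℕ) :
    ((List.range n).map f).take k = (List.range (min k n)).map f := by
  rw [← List.map_take, List.take_range]

theorem univ_tree {Q : ℕ × List ℕ → Prop} (hQ : ComputablePred Q) :
    ∃ i, (∀ s : List ℕ, (∀ n, Q (i, s.take n)) → Rt i s) ∧
      ∀ f : ℕ → ℕ, (∀ n, Rt i ((List.range n).map f)) → ∀ n, Q (i, (List.range n).map f) := by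
  have h : Computable fun t : ℕ => if Q (t.unpair.1, ofNat (List ℕ) t.unpair.2) then 1 else 0 := by
    fun_prop
  obtain ⟨c, hc⟩ := Code.exists_code.1 (Partrec.nat_iff.1 h.partrec)
  refine ⟨Encodable.encode c, fun s hs n _ e => ?_, fun f hf n => by_contra fun hn => ?_⟩
  · have := Code.evaln_sound e
    simp [hc, hs] at this
  · obtain ⟨k, hk⟩ := (Code.evaln_complete (c := c) (x := 0) (n := Nat.pair (Encodable.encode c)
      (Encodable.encode ((List.range n).map f)))).1 (by simp [hc, hn])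
    refine hf (Nat.pair n k) (Nat.pair n k) (by simp) ?_
    rw [Nat.unpair_pair, take_range, min_eq_left (Nat.left_le_pair _ _), ofNat_encode]
    exact hk

theorem not_sg_U : ¬ Sg fun i => ¬ U i := by
  rintro ⟨R, hR, H⟩
  obtain ⟨i, h1, h2⟩ := univ_tree hR
  have : U i ↔ ¬ U i := by
    refine Iff.trans ?_ (H i).symm
    exact exists_congr fun f => ⟨h2 f, fun h n => h1 _ fun k => by rw [take_range]; exact h _⟩
  tauto

theorem exists_U : ∃ i, U i := by
  obtain ⟨i, h1, -⟩ := univ_tree (Q := fun _ => True) (cp_const _)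
  exact ⟨i, id, fun n => h1 _ fun _ => trivial⟩

/-- Decoding of letters. -/
def dc (σ : ℕ) : ℕ × ℕ × List ℕ := ofNat _ σ

/-- Coding of letters. -/
def cd (N m : ℕ) (s : List ℕ) : ℕ := Encodable.encode (N, m, s)

@[simp] theorem dc_cd (N m : ℕ) (s : List ℕ) : dc (cd N m s) = (N, m, s) := ofNat_encode _

theorem cd_dc (σ : ℕ) : cd (dc σ).1 (dc σ).2.1 (dc σ).2.2 = σ := encode_ofNat _

/-- Valid letters. -/
def Val (q : ℕ × ℕ × List ℕ) : Prop := q.2.2.length = q.2.1 - q.1 ∧ Rt q.1.unpair.1 q.2.2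

/-- The level of a letter. -/
noncomputable def tlev (σ : ℕ) : ℕ := if Val (dc σ) then (dc σ).2.1 else 0

/-- The parent of a letter. -/
def tpar (σ : ℕ) : ℕ := cd (dc σ).1 ((dc σ).2.1 - 1) ((dc σ).2.2.take ((dc σ).2.1 - 1 - (dc σ).1))

@[fun_prop] theorem c_tlev : Computable tlev := by
  unfold tlev Val dc
  fun_prop

@[fun_prop] theorem c_tpar : Computable tpar := by
  unfold tpar cd dc
  fun_prop

theorem tlev_cd {N m : ℕ} {s : List ℕ} (h1 : s.length = m - N) (h2 : Rt N.unpair.1 s) :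
    tlev (cd N m s) = m := by
  simp [tlev, Val, h1, h2]

theorem tlev_pos {σ n : ℕ} (h : tlev σ = n + 1) : Val (dc σ) ∧ (dc σ).2.1 = n + 1 := by
  unfold tlev at h
  split_ifs at h with h1
  exact ⟨h1, h⟩

theorem tlev_tpar (σ n : ℕ) (h : tlev σ = n + 1) : tlev (tpar σ) = n := by
  obtain ⟨⟨h1, h2⟩, h3⟩ := tlev_pos h
  rw [tpar, tlev_cd (by simp; omega) (h2.take _), h3, Nat.add_sub_cancel]

theorem fst_tpar (σ : ℕ) : (dc (tpar σ)).1 = (dc σ).1 := by simp [tpar]

/-- The branch of letters given by a function. -/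
def br (N : ℕ) (φ : ℕ → ℕ) (n : ℕ) : ℕ := cd N n ((List.range (n - N)).map φ)

theorem tpar_br (N : ℕ) (φ : ℕ → ℕ) (n : ℕ) : tpar (br N φ (n + 1)) = br N φ n := by
  simp only [tpar, br, dc_cd, take_range, Nat.add_sub_cancel]
  rw [min_eq_left (by omega)]

theorem ill_of_U {N : ℕ} (h : U N.unpair.1) : Ill tlev tpar (cd N N []) := by
  obtain ⟨f, hf⟩ := h
  refine ⟨fun k => br N f (N + k), by simp [br], fun k => ⟨?_, tpar_br N f (N + k)⟩⟩
  rw [tlev_cd (by simp) (rt_nil _)]
  exact tlev_cd (by simp) (hf _)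

theorem Ill.U {σ : ℕ} (h : Ill tlev tpar σ) : U (dc σ).1.unpair.1 := by
  obtain ⟨t, h0, ht⟩ := h
  have e1 : ∀ k, (dc (t k)).1 = (dc σ).1 := by
    intro k
    induction k with
    | zero => rw [h0]
    | succ k ih => rw [← ih, ← (ht k).2, fst_tpar]
  have e2 := fun k => tlev_pos (ht (k + 1)).1
  have e3 : ∀ k, (dc (t (k + 1))).2.2.length = tlev σ + k + 1 - (dc σ).1 := fun k => by
    rw [(e2 k).1.1, (e2 k).2, e1]
    rfl
  have e4 : ∀ k d, (dc (t (k + 1))).2.2 <+: (dc (t (k + d + 1))).2.2 := by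
    intro k d
    induction d with
    | zero => exact List.prefix_rfl
    | succ d ih =>
      refine ih.trans ?_
      rw [← (ht (k + d + 1)).2, tpar, dc_cd]
      exact List.take_prefix _ _
  refine ⟨fun j => (dc (t ((dc σ).1 + j + 1))).2.2.getD j 0, fun n => ?_⟩
  have := ((e2 ((dc σ).1 + n)).1.2).take n
  rw [e1] at this
  convert this using 1
  refine List.ext_getElem (by simp [e3]; omega) fun j h1 h2 => ?_
  have hj : j < n := by simpa using h1
  have h3 := e4 ((dc σ).1 + j) (n - j)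
  rw [show (dc σ).1 + j + (n - j) = (dc σ).1 + n by omega] at h3
  have h4 : j < (dc (t ((dc σ).1 + j + 1))).2.2.length := by rw [e3]; omega
  simp only [List.getElem_map, List.getElem_range, List.getElem_take]
  rw [List.getD_eq_getElem _ _ h4, h3.getElem h4]

theorem good_tree (β : Ordinal.{0}) (hβ : CompOrd β) :
    ∃ m s, Good tlev tpar β m s ∧ ¬ Ill tlev tpar (s m) := by
  obtain ⟨T, r, wo, hT, hr, rfl⟩ := hβ
  let lx : ℕ → ℕ → Prop := fun a b =>
    r a.unpair.1 b.unpair.1 ∨ (a.unpair.1 = b.unpair.1 ∧ a.unpair.2 < b.unpair.2)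
  have e1 : ∀ {δ : Type} [Primcodable δ] {f : δ → ℕ}, Computable f →
      ComputablePred fun x => f x ∈ T := fun h => cp_comp hT h
  obtain ⟨i, h1, h2⟩ := univ_tree (Q := fun q => Ball q.2.length
    (fun t => (q.2.getD t 0).unpair.1 ∈ T) ∧ Ball (q.2.length - 1)
    fun t => lx (q.2.getD (t + 1) 0) (q.2.getD t 0))
    (p_and (p_ball (by fun_prop) (e1 (by fun_prop))) (by simp only [lx]; fun_prop))
  have hN : (Nat.pair i 0).unpair.1 = i := by simp
  generalize Nat.pair i 0 = N at hN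
  have key : ∀ β : Ordinal.{0}, ∀ k (φ : ℕ → ℕ), (∀ t < k, (φ t).unpair.1 ∈ T) →
      (∀ t, t + 1 < k → lx (φ (t + 1)) (φ t)) →
      (∀ δ < β, ∃ b : T, Ordinal.typein (fun x y : T => r x y) b = δ ∧
        ∀ t, t + 1 = k → r b (φ t).unpair.1) → Good tlev tpar β (N + k) (br N φ) := by
    intro β
    induction β using WellFoundedLT.induction with
    | ind β ih =>
      intro k φ a1 a2 a3
      refine good_iff.2 ⟨⟨fun n hn => tlev_cd (by simp) (hN ▸ h1 _ fun j => ?_),
        fun n _ => tpar_br N φ n⟩, fun δ hδ M => ?_⟩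
      · rw [take_range]
        refine ⟨fun t ht => ?_, fun t ht => ?_⟩
        · simp only [List.length_map, List.length_range] at ht
          simpa [List.getD_eq_getElem?_getD, ht] using a1 t (by omega)
        · simp only [List.length_map, List.length_range] at ht
          simpa [List.getD_eq_getElem?_getD, show t < min j (n - N) by omega,
            show t + 1 < min j (n - N) by omega] using a2 t (by omega)
      · obtain ⟨b, rfl, b2⟩ := a3 δ hδ
        refine ⟨N + (k + M + 1), br N fun t => if t < k then φ t else Nat.pair b (M - (t - k)),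
          by omega, by omega, fun n hn => ?_, ih _ hδ _ _ (fun t ht => ?_) (fun t ht => ?_)
          fun ε hε => ?_⟩
        · unfold br
          congr 1
          exact List.map_congr_left fun t ht => if_pos (by simp at ht; omega)
        · split_ifs with h
          · exact a1 t h
          · simp
        · by_cases c1 : t + 1 < k
          · rw [if_pos c1, if_pos (by omega)]
            exact a2 t c1
          · by_cases c2 : t < k
            · rw [if_neg c1, if_pos c2]
              exact Or.inl (by simpa using b2 t (by omega))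
            · rw [if_neg c1, if_neg c2]
              exact Or.inr ⟨by simp, by simp; omega⟩
        · obtain ⟨b', rfl⟩ := Ordinal.typein_surj _ (hε.trans (Ordinal.typein_lt_type _ b))
          refine ⟨b', rfl, fun t ht => ?_⟩
          rw [if_neg (by omega)]
          simpa using (Ordinal.typein_lt_typein _).1 hε
  refine ⟨N + 0, br N id, key _ 0 id (by simp) (by simp) fun δ hδ => ?_, fun h => ?_⟩
  · obtain ⟨b, hb⟩ := Ordinal.typein_surj _ hδ
    exact ⟨b, hb, by simp⟩
  · obtain ⟨f, hf⟩ := h.U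
    simp only [br, dc_cd, hN] at hf
    have c1 : ∀ n, (f n).unpair.1 ∈ T := fun n => by
      simpa using (h2 f hf (n + 1)).1 n (by simp)
    have c2 : ∀ n, lx (f (n + 1)) (f n) := fun n => by
      simpa [List.getD_eq_getElem?_getD] using (h2 f hf (n + 2)).2 n (by simp)
    refine (wellFounded_iff_isEmpty_descending_chain.1
      (WellFounded.prod_lex wo.wf (wellFounded_lt (α := ℕ)))).false
      ⟨fun n => (⟨_, c1 n⟩, (f n).unpair.2), fun n => ?_⟩
    rcases c2 n with h | ⟨h, h'⟩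
    · exact Prod.Lex.left _ _ h
    · simp only [h]
      exact Prod.Lex.right _ h'

end Pool.Agent.MP_9125cf_lc

end

section

set_option autoImplicit false

namespace Pool.Agent.MP_9125cf_lc

open Classical Denumerable

theorem foldr_act_free (w : List ℕ) {L : List ℕ} (hL : Rd L) (h : L.foldr act w = w) : L = [] := by
  have key : ∀ L : List ℕ, Rd L → ∃ L0 C w0 : List ℕ, L = L0 ++ C.reverse ∧ w = C ++ w0 ∧
      L.foldr act w = L0 ++ w0 := by
    intro L hL
    induction L with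
    | nil => exact ⟨[], [], w, rfl, rfl, rfl⟩
    | cons σ L ih =>
      obtain ⟨L0, C, w0, h1, h2, h3⟩ := ih (List.isChain_cons.1 hL).2
      rw [List.foldr_cons, h3, act]
      split_ifs with h4
      · cases L0 with
        | nil =>
          obtain ⟨t, rfl⟩ := List.head?_eq_some_iff.1 h4
          exact ⟨[], C ++ [σ], t, by simp [h1], by simp [h2], rfl⟩
        | cons τ L0 =>
          obtain rfl : τ = σ := by simpa using h4
          exact absurd rfl ((List.isChain_cons.1 hL).1 τ (by simp [h1]))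
      · exact ⟨σ :: L0, C, w0, by simp [h1], h2, rfl⟩
  obtain ⟨L0, C, w0, h1, h2, h3⟩ := key L hL
  obtain rfl : L0 = C := List.append_cancel_right (h3.symm.trans (h.trans h2))
  rcases List.eq_nil_or_concat L0 with rfl | ⟨C, c, rfl⟩
  · simpa using h1
  · rw [h1, Rd, List.isChain_append] at hL
    exact absurd rfl (hL.2.2 c (by simp) c (by simp))

theorem foldr_act_rev {w : List ℕ} (hw : Rd w) : w.reverse.foldr act w = [] := by
  induction w with
  | nil => rfl
  | cons σ w ih =>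
    rw [List.reverse_cons, List.foldr_append]
    simpa [act] using ih (List.isChain_cons.1 hw).2

theorem countP_act (q : ℕ → Bool) (σ : ℕ) (w : List ℕ) :
    (act σ w).countP q % 2 = (w.countP q + if q σ then 1 else 0) % 2 := by
  unfold act
  split_ifs with h1 h2 h2
  · obtain ⟨t, rfl⟩ := List.head?_eq_some_iff.1 h1
    simp [h2]; omega
  · obtain ⟨t, rfl⟩ := List.head?_eq_some_iff.1 h1
    simp [h2]
  · simp [h2]
  · simp [h2]

theorem countP_foldr (q : ℕ → Bool) (L w : List ℕ) :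
    (L.foldr act w).countP q % 2 = (L.countP q + w.countP q) % 2 := by
  induction L with
  | nil => simp
  | cons σ L ih => rw [List.foldr_cons, countP_act, List.countP_cons]; omega

theorem exists_odd_count {q : ℕ → Bool} {w : List ℕ} (h : w.countP q % 2 = 1) :
    ∃ σ, q σ ∧ w.count σ % 2 = 1 := by
  by_contra hn
  push Not at hn
  rw [List.countP_eq_length_filter, ← List.sum_toFinset_count_eq_length] at h
  have : 2 ∣ ∑ a ∈ (w.filter q).toFinset, (w.filter q).count a := Finset.dvd_sum fun a ha => by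
    have h1 : q a := by simp at ha; exact ha.2
    rw [List.count_filter h1]
    have := hn a h1
    omega
  omega

/-- The twisting words. -/
def tw (i n : ℕ) : List ℕ := if n.unpair.1 = i then [cd n n []] else []

theorem at_tw (i n : ℕ) : At tlev n (tw i n) := by
  unfold tw
  split_ifs
  · simpa [At] using tlev_cd (by simp) (rt_nil _)
  · simp [At]

theorem rd_tw (i n : ℕ) : Rd (tw i n) := by
  unfold tw
  split_ifs <;> simp

/-- Valid elements. -/
def Vl (q : ℕ × List ℕ) : Prop := Rd q.2 ∧ At tlev q.1 q.2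

/-- The involutions. -/
noncomputable def fx (σ : ℕ) (q : ℕ × List ℕ) : ℕ × List ℕ :=
  if tlev σ = q.1 then (q.1, act σ q.2) else q

/-- The projection. -/
def px (i : ℕ) (q : ℕ × List ℕ) : ℕ × List ℕ :=
  if q.1 = 0 then q else (q.1 - 1, (q.2.map tpar).foldr act (tw i (q.1 - 1)))

theorem Vl.fx {q : ℕ × List ℕ} (h : Vl q) (σ : ℕ) : Vl (fx σ q) := by
  unfold MP_9125cf_lc.fx
  split_ifs with h1
  · exact ⟨h.1.act σ, fun τ hτ => (mem_act hτ).elim (fun e => e ▸ h1) (h.2 τ)⟩
  · exact h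

theorem Vl.px {q : ℕ × List ℕ} (h : Vl q) (i : ℕ) : Vl (px i q) := by
  unfold MP_9125cf_lc.px
  split_ifs with h1
  · exact h
  · refine ⟨rd_foldr _ (rd_tw _ _), fun τ hτ => (mem_foldr hτ).elim (fun e => ?_) (at_tw _ _ τ)⟩
    obtain ⟨ρ, h2, rfl⟩ := List.mem_map.1 e
    exact tlev_tpar _ _ (by rw [h.2 ρ h2]; simp only; omega)

theorem fx_fst (σ : ℕ) (q : ℕ × List ℕ) : (fx σ q).1 = q.1 := by
  unfold fx
  split_ifs <;> rfl

theorem foldr_fx (x : {q // Vl q}) {L : List ℕ} (h : At tlev x.1.1 L) :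
    (L.foldr (fun σ (y : {q // Vl q}) => (⟨fx σ y.1, y.2.fx σ⟩ : {q // Vl q})) x).1
      = (x.1.1, L.foldr act x.1.2) := by
  induction L with
  | nil => rfl
  | cons σ L ih =>
    simp only [List.foldr_cons, ih (h.sub (by simp))]
    exact if_pos (h σ (by simp))

/-- The `i`-th system. -/
noncomputable def XS (i : ℕ) : Sys tlev tpar {q // Vl q} where
  lv x := x.1.1
  f σ x := ⟨fx σ x.1, x.2.fx σ⟩
  p x := ⟨px i x.1, x.2.px i⟩
  lev_par := tlev_tpar
  lv_f σ x := fx_fst σ x.1
  f_f σ x h := Subtype.ext (by simp [fx, h, act_act x.2.1])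
  lv_p x n h := by simp [px, h]
  p_f σ x h h' := Subtype.ext (by
    have h1 : tlev (tpar σ) = x.1.1 - 1 := tlev_tpar _ _ (by omega)
    simp only [fx, px, if_pos h, if_neg h'.ne', h1, if_true, Prod.mk.injEq, true_and]
    by_cases h2 : x.1.2.head? = some σ
    · obtain ⟨t, ht⟩ := List.head?_eq_some_iff.1 h2
      rw [ht, List.map_cons, List.foldr_cons, act_act (rd_foldr _ (rd_tw _ _))]
      simp [act]
    · conv_lhs => rw [act, if_neg h2]
      rfl)
  ne n := ⟨⟨(n, []), by simp, by simp [At]⟩, rfl⟩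
  conn x y h := ⟨y.1.2 ++ x.1.2.reverse, At.append (h ▸ y.2.2) x.2.2.reverse, Subtype.ext (by
    rw [foldr_fx x (At.append (h ▸ y.2.2) x.2.2.reverse), List.foldr_append,
      foldr_act_rev x.2.1, h]
    exact Prod.ext rfl (red_of_rd y.2.1))⟩
  free x L h1 h2 h3 := foldr_act_free x.1.2 h2 (by
    have := foldr_fx x h1
    rw [h3] at this
    exact (congrArg Prod.snd this).symm)

theorem thread_of_U {i : ℕ} (h : U i) : ∃ e, (XS i).Thread e := by
  refine (XS i).thread_of_ill (b := fun n => ⟨(n, []), by simp, by simp [At]⟩) (H := tw i)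
    (fun _ => rfl) (at_tw i) (fun n σ hσ => ?_) fun n => Subtype.ext ?_
  · unfold tw at hσ
    split_ifs at hσ with h1
    · obtain rfl : σ = cd n n [] := by simpa using hσ
      exact ill_of_U (h1 ▸ h)
    · simp at hσ
  · exact Eq.trans (by simp [XS, px]; exact (red_of_rd (rd_tw _ _)).symm)
      (foldr_fx ⟨(n, []), by simp, by simp [At]⟩ (at_tw i n)).symm

theorem U_of_thread {i : ℕ} {e : ℕ → {q // Vl q}} (he : (XS i).Thread e) : U i := by
  have l : ∀ n, (e n).1.1 = n := fun n => (he n).1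
  have c : ∀ n (q : ℕ → Bool), (e n).1.2.countP q % 2 =
      ((e (n + 1)).1.2.countP (q ∘ tpar) + (tw i n).countP q) % 2 := by
    intro n q
    have : (e n).1 = px i (e (n + 1)).1 := congrArg Subtype.val (he n).2.symm
    rw [this, px, if_neg (by rw [l]; omega), l, Nat.add_sub_cancel, countP_foldr,
      List.countP_map]
  obtain ⟨N, hN, h0⟩ : ∃ N, N.unpair.1 = i ∧ ∀ σ ∈ (e 0).1.2, (dc σ).1 ≠ N := by
    refine ⟨Nat.pair i (((e 0).1.2.map fun σ => (dc σ).1).sum + 1), by simp, fun σ hσ h => ?_⟩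
    have h1 := List.single_le_sum (l := (e 0).1.2.map fun σ => (dc σ).1) (by simp) _
      (List.mem_map_of_mem hσ)
    have h2 := Nat.right_le_pair i (((e 0).1.2.map fun σ => (dc σ).1).sum + 1)
    omega
  have t0 : ∀ n (q : ℕ → Bool), n ≠ N → (∀ σ, q σ → (dc σ).1 = N) → (tw i n).countP q = 0 := by
    intro n q hn hq
    rw [List.countP_eq_zero]
    intro σ hσ h
    unfold tw at hσ
    split_ifs at hσ
    · obtain rfl : σ = cd n n [] := by simpa using hσ
      exact hn (by simpa using hq _ h)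
    · simp at hσ
  have e1 : (fun σ => decide ((dc σ).1 = N)) ∘ tpar = fun σ => decide ((dc σ).1 = N) := by
    funext σ
    simp [fst_tpar]
  have ev : ∀ n ≤ N, (e n).1.2.countP (fun σ => decide ((dc σ).1 = N)) % 2 = 0 := by
    intro n
    induction n with
    | zero => intro _; rw [List.countP_eq_zero.2 (by simpa using h0)]
    | succ n ih =>
      intro hn
      have := c n fun σ => decide ((dc σ).1 = N)
      rwa [ih (by omega), e1, t0 n _ (by omega) (by simp), add_zero, eq_comm] at this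
  have od : (e (N + 1)).1.2.countP (fun σ => decide ((dc σ).1 = N)) % 2 = 1 := by
    have := c N fun σ => decide ((dc σ).1 = N)
    rw [ev N le_rfl, e1, tw, if_pos hN] at this
    simp at this
    omega
  obtain ⟨σ, h1, h2⟩ := exists_odd_count od
  have mem : ∀ n σ, (e n).1.2.count σ % 2 = 1 → tlev σ = n := fun n σ h =>
    ((e n).2.2 σ (List.count_pos_iff.1 (by omega))).trans (l n)
  have := (ill_of_step (lev := tlev) (par := tpar) (P := fun σ => (dc σ).1 = N ∧
    ∃ n, N < n ∧ (e n).1.2.count σ % 2 = 1) ?_ ⟨by simpa using h1, N + 1, by omega, h2⟩).U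
  · rwa [(by simpa using h1 : (dc σ).1 = N), hN] at this
  · rintro σ ⟨a1, n, a2, a3⟩
    have := c n (· == σ)
    rw [t0 n _ (by omega) (by simpa using a1), add_zero] at this
    obtain ⟨τ, b1, b2⟩ := exists_odd_count (this.symm.trans a3)
    have b3 : tpar τ = σ := by simpa using b1
    exact ⟨τ, ⟨by rw [← fst_tpar, b3, a1], n + 1, by omega, b2⟩,
      by rw [mem _ _ b2, mem _ _ a3], b3⟩

theorem c_nth {p : ℕ → Prop} (hp : ComputablePred p) (hi : {n | p n}.Infinite) :
    Computable (Nat.nth p) := by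
  have h1 : Computable fun n => Nat.count p n := by
    refine (c_foldr_range (n := fun n => n) (b := fun _ => 0)
      (h := fun _ j c => c + if p j then 1 else 0) (by fun_prop) (by fun_prop)
      (by fun_prop)).of_eq fun n => ?_
    induction n with
    | zero => simp
    | succ n ih => rw [Nat.count_succ, ← ih]
  have h2 : ∀ n, ∃ x, p x ∧ Nat.count p x = n := fun n =>
    ⟨_, Nat.nth_mem_of_infinite hi n, Nat.count_nth_of_infinite hi n⟩
  refine (Computable.find (P := fun n x => p x ∧ Nat.count p x = n) (by fun_prop) h2).of_eq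
    fun n => ?_
  obtain ⟨a, b⟩ := Nat.find_spec (h2 n)
  rw [← Nat.nth_count a, b]

theorem cp_vl : ComputablePred Vl := by
  have : ComputablePred fun q : ℕ × List ℕ => Ball (q.2.length - 1)
      (fun j => q.2.getD j 0 ≠ q.2.getD (j + 1) 0) ∧
      Ball q.2.length fun j => tlev (q.2.getD j 0) = q.1 := by fun_prop
  refine this.of_eq fun q => and_congr (Iff.trans ?_ rdI_iff) ?_
  · exact forall_congr' fun j => by rw [Nat.lt_sub_iff_add_lt]
  · unfold At Ball
    rw [List.forall_mem_iff_forall_getElem]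
    refine forall_congr' fun j => ⟨fun h hj => ?_, fun h hj => ?_⟩
    · simpa [List.getD_eq_getElem?_getD, hj] using h hj
    · simpa [List.getD_eq_getElem?_getD, hj] using h hj

theorem exists_enum : ∃ E : ℕ ≃ {q // Vl q}, Computable fun n => (E n).1 := by
  have hi : {n | Vl (ofNat (ℕ × List ℕ) n)}.Infinite :=
    Set.infinite_of_injective_forall_mem (f := fun n : ℕ => Encodable.encode (n, ([] : List ℕ)))
      (fun a b h => by simpa using Encodable.encode_injective h) fun n => by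
        simp only [Set.mem_ofPred_eq, ofNat_encode]
        exact ⟨by simp, by simp [At]⟩
  have hc := c_nth (cp_comp cp_vl (Computable.ofNat _)) hi
  refine ⟨Equiv.ofBijective (fun n => ⟨_, Nat.nth_mem_of_infinite hi n⟩) ⟨fun a b h => ?_,
    fun q => ?_⟩, (Computable.ofNat _).comp hc⟩
  · exact Nat.nth_injective hi ((eqv (ℕ × List ℕ)).symm.injective (congrArg Subtype.val h))
  · refine ⟨Nat.count (fun n => Vl (ofNat (ℕ × List ℕ) n)) (Encodable.encode q.1),
      Subtype.ext ?_⟩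
    simp only
    rw [Nat.nth_count (by simpa only [ofNat_encode] using q.2), ofNat_encode]

theorem exists_family : ∃ X : ℕ → Sys tlev tpar ℕ,
    (ComputablePred fun q : ℕ × ℕ × ℕ × ℕ => (X q.1).rel q.2.1 q.2.2.1 q.2.2.2) ∧
    ∀ i, (∃ e, (X i).Thread e) ↔ U i := by
  obtain ⟨E, hE⟩ := exists_enum
  refine ⟨fun i => (XS i).map E.symm, ?_, fun i => ⟨fun ⟨e, he⟩ =>
    U_of_thread (((XS i).mor_map' E.symm).thread_map he), fun h => (thread_of_U h).elim
      fun e he => ⟨_, ((XS i).mor_map E.symm).thread_map he⟩⟩⟩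
  have h1 : Computable fun z : ℕ × List ℕ => act z.1 z.2 := by
    unfold act
    fun_prop
  have h2 : Computable fun z : ℕ × ℕ × List ℕ => fx z.1 z.2 := by
    unfold fx
    fun_prop
  have h3 : Computable fun z : ℕ × ℕ × List ℕ => px z.1 z.2 := by
    unfold px tw cd
    fun_prop
  have : ComputablePred fun q : ℕ × ℕ × ℕ × ℕ =>
      (q.2.1 = 0 ∧ 0 < (E q.2.2.1).1.1 ∧ px q.1 (E q.2.2.1).1 = (E q.2.2.2).1) ∨
      (q.2.1 % 2 = 1 ∧ q.2.2.1 = q.2.2.2 ∧ (E q.2.2.1).1.1 = q.2.1 / 2) ∨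
      (q.2.1 ≠ 0 ∧ q.2.1 % 2 = 0 ∧ tlev (q.2.1 / 2 - 1) = (E q.2.2.1).1.1 ∧
        fx (q.2.1 / 2 - 1) (E q.2.2.1).1 = (E q.2.2.2).1) := by
    generalize hF : (fun n => (E n).1) = F at hE
    have : ∀ n, (E n).1 = F n := fun n => congrFun hF n
    simp only [this]
    fun_prop
  refine this.of_eq fun q => ?_
  simp only [Sys.rel, Sys.map, XS, Equiv.symm_symm, Equiv.symm_apply_eq, Subtype.ext_iff]

end Pool.Agent.MP_9125cf_lc

end

section

set_option autoImplicit false

namespace Pool.Agent.MP_9125cf_lc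

open Classical

theorem mem_isoClass {K : Set Str} {A : Str} {e : ℕ} :
    e ∈ indexSet {N | N ∈ K ∧ Iso N A} ↔ e ∈ indexSet K ∧ Iso (Hold e) A := by
  simp only [mem_indexSet, Set.mem_ofPred_eq, and_assoc]

theorem main_facts : ∃ A ∈ Cls tlev tpar, (∀ M ∈ Cls tlev tpar, Iso M A → HighRank M) ∧
    (∀ M ∈ Cls tlev tpar, ¬ Iso M A → scottRank M < omega1CK ∧
      Dl fun e => e ∈ indexSet (Cls tlev tpar) ∧ Iso (Hold e) M) ∧
    ∃ X : ℕ → Str, (ComputablePred fun q : ℕ × ℕ × ℕ × ℕ => X q.1 q.2.1 q.2.2.1 q.2.2.2) ∧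
      (∀ i, X i ∈ Cls tlev tpar) ∧ ∀ i, Iso (X i) A ↔ U i := by
  obtain ⟨X, h1, h2⟩ := exists_family
  obtain ⟨a, ha⟩ := exists_U
  obtain ⟨e, he⟩ := (h2 a).2 ha
  obtain ⟨g, -, hg⟩ := exists_index (X := fun i => (X i).rel) h1
  have key : ∀ S : Sys tlev tpar ℕ, Iso S.rel (X a).rel ↔ ∃ e, S.Thread e := fun S =>
    ⟨fun h => (Sys.iso_iff.1 h.symm).elim fun _ h => ⟨_, h.thread_map he⟩,
      fun ⟨_, h⟩ => Sys.iso_iff.2 (Sys.mor_of_thread _ _ h he)⟩
  refine ⟨(X a).rel, ⟨⟨_, hg a⟩, _, rfl⟩, ?_, ?_, fun i => (X i).rel, h1,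
    fun i => ⟨⟨_, hg i⟩, _, rfl⟩, fun i => (key _).trans (h2 i)⟩
  · rintro M ⟨hM, S, rfl⟩ h
    obtain ⟨e', he'⟩ := (key S).1 h
    exact Sys.high_rank hM he' good_tree
  · rintro M ⟨hM, S, rfl⟩ h
    exact ⟨Sys.low_rank hM (mt (key S).2 h), dl_class c_tlev c_tpar hM (mt (key S).2 h)⟩

theorem not_dl_class {K : Set Str} {A : Str} {X : ℕ → Str}
    (h1 : ComputablePred fun q : ℕ × ℕ × ℕ × ℕ => X q.1 q.2.1 q.2.2.1 q.2.2.2)
    (h2 : ∀ i, X i ∈ K) (h3 : ∀ i, Iso (X i) A ↔ U i) :
    ¬ Dl fun e => e ∈ indexSet K ∧ Iso (Hold e) A := by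
  intro h
  obtain ⟨g, hg, H⟩ := exists_index h1
  refine not_sg_U ((h.2.comp hg).of_eq fun i => not_congr ?_)
  simp only []
  rw [← (codes_iff.1 (H i)).2, h3]
  exact and_iff_right ⟨_, h2 i, H i⟩

theorem unique_high : ∃ K : Set Str, IsClass K ∧ Delta11 (indexSet K) ∧ ∃ A ∈ K, HighRank A ∧
    (∀ M ∈ K, HighRank M ↔ Iso M A) ∧ (∀ M ∈ K, ¬ Iso M A → scottRank M < omega1CK) ∧
    ∀ M ∈ K, (Delta11 (indexSet {N | N ∈ K ∧ Iso N M}) ↔ ¬ Iso M A) := by
  obtain ⟨A, hA, h1, h2, X, h3, h4, h5⟩ := main_facts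
  refine ⟨_, isClass_cls tlev tpar, dl_cls c_tlev c_tpar, A, hA, h1 A hA (.refl A),
    fun M hM => ⟨fun h => by_contra fun hn => ?_, h1 M hM⟩, fun M hM h => (h2 M hM h).1,
    fun M hM => ?_⟩
  · have := (h2 M hM hn).1
    rcases h with h | h
    · exact this.ne h
    · exact absurd (h ▸ this) (not_lt.2 (Order.le_succ _))
  · simp only [delta11_iff, mem_isoClass]
    refine ⟨fun h hi => not_dl_class h3 h4 h5 (h.of_eq fun e => and_congr_right fun _ =>
      ⟨fun h => h.trans hi, fun h => h.trans hi.symm⟩), fun h => (h2 M hM h).2⟩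

/-- The complement of a structure. -/
def cpl (M : Str) : Str := fun i x y => ¬ M i x y

theorem cpl_cpl (M : Str) : cpl (cpl M) = M := by
  funext i x y
  simp [cpl]

theorem Iso.cpl {M N : Str} (h : Iso M N) : Iso (cpl M) (cpl N) :=
  h.imp fun _ h i x y => not_congr (h i x y)

theorem IsComp.cpl {M : Str} (h : IsComp M) : IsComp (cpl M) := isComp_of_cp h.cp.not

theorem intermediate : ∃ K : Set Str, IsClass K ∧ Delta11 (indexSet K) ∧ Sigma11 (isoRel K) ∧
    ¬ Delta11 (isoRel K) ∧ ∃ K' : Set Str, IsClass K' ∧ Delta11 (indexSet K') ∧ ¬ HRed K' K := by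
  obtain ⟨A, hA, -, h2, X, h3, h4, h5⟩ := main_facts
  have hK := dl_cls c_tlev c_tpar
  have hC := isClass_cls tlev tpar
  obtain ⟨a, ha⟩ := hA.1
  obtain ⟨a', ha'⟩ := hA.1.cpl
  have hK' : Dl fun e => e ∈ indexSet {M | M ∈ Cls tlev tpar ∨ cpl M ∈ Cls tlev tpar} := by
    have : Dl fun e => Tot e ∧ (Ax tlev tpar (Hold e) ∨ Ax tlev tpar (cpl (Hold e))) :=
      d_and (by fun_prop) (d_or (d_ax c_tlev c_tpar (by fun_prop))
        (d_ax c_tlev c_tpar (by unfold cpl; fun_prop)))
    refine this.of_eq fun e => ?_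
    rw [mem_indexSet]
    refine and_congr_right fun h => ?_
    have hc : IsComp (Hold e) := ⟨e, codes_iff.2 ⟨h, rfl⟩⟩
    simp [mem_cls, hc, hc.cpl]
  refine ⟨_, hC, hK, ?_, fun h => ?_, {M | M ∈ Cls tlev tpar ∨ cpl M ∈ Cls tlev tpar},
    ⟨?_, ?_⟩, hK', ?_⟩
  · exact Sg.of_eq (s_and (hK.1.comp Computable.fst) (s_and (hK.1.comp Computable.snd)
      (sg_iso (M := fun q : ℕ × ℕ => Hold q.1) (N := fun q => Hold q.2) (by fun_prop)
        (by fun_prop)))) fun q => mem_isoRel.symm
  · refine not_dl_class h3 h4 h5 ((((delta11_iff _).1 h).comp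
      (g := fun e : ℕ => (e, a)) (by fun_prop)).of_eq fun e => ?_)
    rw [mem_isoRel, (codes_iff.1 ha).2]
    exact and_congr_right fun _ => and_iff_right ⟨_, hA, ha⟩
  · rintro M (h | h)
    · exact h.1
    · exact cpl_cpl M ▸ h.1.cpl
  · rintro M (h | h) N hN hi
    · exact Or.inl (hC.2 M h N hN hi)
    · exact Or.inr (hC.2 _ h _ hN.cpl hi.cpl)
  · rintro ⟨F, f1, f2, f3⟩
    have f1' : Dl fun q : ℕ × ℕ => F q.1 = q.2 := f1
    have key : ∀ b ∈ indexSet {M | M ∈ Cls tlev tpar ∨ cpl M ∈ Cls tlev tpar},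
        ¬ Iso (Hold (F b)) A → Dl fun e =>
          e ∈ indexSet {M | M ∈ Cls tlev tpar ∨ cpl M ∈ Cls tlev tpar} ∧
            Iso (Hold e) (Hold b) := by
      intro b hb hn
      have d1 := (h2 _ (mem_indexSet.1 (f2 b hb)).2 hn).2
      refine (hK'.and (Dl.ex (f1'.and (d1.comp Computable.snd)))).of_eq fun e =>
        and_congr_right fun he => ?_
      have := f3 e he b hb
      simp only [mem_isoRel, he, hb, f2 e he, f2 b hb, true_and] at this
      simp [this, f2 e he]
    have m1 : a ∈ indexSet {M | M ∈ Cls tlev tpar ∨ cpl M ∈ Cls tlev tpar} :=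
      ⟨A, Or.inl hA, ha⟩
    have m2 : a' ∈ indexSet {M | M ∈ Cls tlev tpar ∨ cpl M ∈ Cls tlev tpar} :=
      ⟨cpl A, Or.inr (by rwa [cpl_cpl]), ha'⟩
    by_cases c1 : Iso (Hold (F a)) A
    · by_cases c2 : Iso (Hold (F a')) A
      · have := (f3 a m1 a' m2).2 (mem_isoRel.2 ⟨f2 a m1, f2 a' m2, c1.trans c2.symm⟩)
        obtain ⟨g, hg⟩ := (mem_isoRel.1 this).2.2
        simp only [← (codes_iff.1 ha).2, ← (codes_iff.1 ha').2] at hg
        obtain ⟨-, S, rfl⟩ := hA
        have := hg (2 * 0 + 1) 0 1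
        rw [cpl, Sys.rel_odd, Sys.rel_odd] at this
        simp at this
      · refine not_dl_class (K := {M | M ∈ Cls tlev tpar ∨ cpl M ∈ Cls tlev tpar})
          (A := cpl A) (X := fun i => cpl (X i)) h3.not
          (fun i => Or.inr (by rw [cpl_cpl]; exact h4 i)) (fun i => Iff.trans
            ⟨fun h => by simpa [cpl_cpl] using h.cpl, Iso.cpl⟩ (h5 i)) ?_
        rw [(codes_iff.1 ha').2]
        exact key a' m2 c2
    · refine not_dl_class (K := {M | M ∈ Cls tlev tpar ∨ cpl M ∈ Cls tlev tpar}) (A := A) h3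
        (fun i => Or.inl (h4 i)) h5 ?_
      rw [(codes_iff.1 ha).2]
      exact key a m1 c1

end Pool.Agent.MP_9125cf_lc

end
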